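import Pool.Agent.H62.DHJ.Main

/-!
# The multidimensional Szemerédi theorem (H62/DHJ/Sz)
-/

open Combinatorics

namespace H62DHJ

/-- Averaged form: if `A` has density at least `δ` along the points `v + ∑ e (x i)`,
`x : Fin n → J`, then `A` contains a homothetic copy `v' + s • e j` of the family `e`. -/
theorem sz_avg (J : Type) [Finite J] {δ : ℝ} (hδ : 0 < δ) :
    ∃ n : ℕ, ∀ (G : Type*) [AddCommMonoid G] (e : J → G) (A : G → Prop) (v : G),
      δ ≤ dn (fun x : Fin n → J => A (v + ∑ i, e (x i))) →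
      ∃ (v' : G) (s : ℕ), 1 ≤ s ∧ s ≤ n ∧ ∀ j, A (v' + s • e j) := by
  classical
  obtain ⟨n, hn⟩ := dhj J δ hδ
  refine ⟨n, ?_⟩
  intro G _ e A v h
  obtain ⟨l, hl⟩ := hn (Fin n) (by simp) _ h
  refine ⟨v + ∑ i, (l.idxFun i).elim 0 e,
    (Finset.univ.filter (fun i => l.idxFun i = none)).card, ?_, ?_, ?_⟩
  · obtain ⟨i, hi⟩ := l.proper
    rw [Nat.one_le_iff_ne_zero, ← Nat.pos_iff_ne_zero, Finset.card_pos]
    exact ⟨i, by simp [hi]⟩
  · refine le_trans (Finset.card_filter_le _ _) ?_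
    simp
  · intro j
    have h1 := hl j
    have h2 : ∑ i, e (l j i) = ∑ i, (l.idxFun i).elim 0 e +
        (Finset.univ.filter (fun i => l.idxFun i = none)).card • e j := by
      rw [← Finset.sum_const, Finset.sum_filter, ← Finset.sum_add_distrib]
      refine Finset.sum_congr rfl (fun i _ => ?_)
      cases hi : l.idxFun i with
      | none => simp [Line.apply_def, hi]
      | some b => simp [Line.apply_def, hi]
    rw [h2, ← add_assoc] at h1
    exact h1

theorem Sz_mean_nat {G : Type*} (μ : (G → ℝ) → ℝ)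
    (hadd : ∀ f g : G → ℝ, (∃ C, ∀ x, |f x| ≤ C) → (∃ C, ∀ x, |g x| ≤ C) →
      μ (fun x => f x + g x) = μ f + μ g) (f : G → ℝ) (hf : ∃ C, ∀ x, |f x| ≤ C) (q : ℕ) :
    μ (fun x => (q : ℝ) * f x) = q * μ f := by
  obtain ⟨C, hC⟩ := hf
  induction q with
  | zero =>
    have h := hadd (fun _ => 0) (fun _ => 0) ⟨0, by simp⟩ ⟨0, by simp⟩
    simp only [add_zero] at h
    simp only [Nat.cast_zero, zero_mul]
    linarith
  | succ q ih =>
    have h := hadd (fun x => (q : ℝ) * f x) f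
      ⟨q * C, fun x => by
        rw [abs_mul, Nat.abs_cast]
        exact mul_le_mul_of_nonneg_left (hC x) (Nat.cast_nonneg q)⟩ ⟨C, hC⟩
    have e : (fun x => ((q + 1 : ℕ) : ℝ) * f x) = fun x => (q : ℝ) * f x + f x := by
      funext x; push_cast; ring
    rw [e, h, ih]
    push_cast; ring

theorem Sz_mean_mono {G : Type*} (μ : (G → ℝ) → ℝ)
    (hadd : ∀ f g : G → ℝ, (∃ C, ∀ x, |f x| ≤ C) → (∃ C, ∀ x, |g x| ≤ C) →
      μ (fun x => f x + g x) = μ f + μ g)
    (hpos : ∀ f : G → ℝ, (∃ C, ∀ x, |f x| ≤ C) → (∀ x, 0 ≤ f x) → 0 ≤ μ f)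
    (f g : G → ℝ) (hf : ∃ C, ∀ x, |f x| ≤ C) (hg : ∃ C, ∀ x, |g x| ≤ C) (h : ∀ x, f x ≤ g x) :
    μ f ≤ μ g := by
  obtain ⟨C, hC⟩ := hf
  obtain ⟨D, hD⟩ := hg
  have hb : ∃ C, ∀ x, |g x - f x| ≤ C := by
    refine ⟨D + C, fun x => ?_⟩
    have h1 := abs_sub (g x) (f x)
    have h2 := hC x
    have h3 := hD x
    linarith [abs_sub (g x) (f x)]
  have h1 := hadd f (fun x => g x - f x) ⟨C, hC⟩ hb
  have h2 := hpos (fun x => g x - f x) hb (fun x => sub_nonneg.2 (h x))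
  have e : (fun x => f x + (g x - f x)) = g := by funext x; ring
  rw [e] at h1
  linarith

theorem Sz_mean_const {G : Type*} (μ : (G → ℝ) → ℝ)
    (hadd : ∀ f g : G → ℝ, (∃ C, ∀ x, |f x| ≤ C) → (∃ C, ∀ x, |g x| ≤ C) →
      μ (fun x => f x + g x) = μ f + μ g)
    (hpos : ∀ f : G → ℝ, (∃ C, ∀ x, |f x| ≤ C) → (∀ x, 0 ≤ f x) → 0 ≤ μ f)
    (hone : μ (fun _ => 1) = 1) (c : ℝ) (hc : 0 ≤ c) : μ (fun _ => c) ≤ c := by
  refine le_of_forall_pos_le_add (fun η hη => ?_)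
  obtain ⟨q, hq⟩ := exists_nat_gt (1 / η)
  have hq0 : (0 : ℝ) < q := lt_trans (by positivity) hq
  have h1 := Sz_mean_nat μ hadd (fun _ => c) ⟨|c|, fun _ => le_rfl⟩ q
  have h2 := Sz_mean_nat μ hadd (fun _ => 1) ⟨1, fun _ => by simp⟩ ⌈(q : ℝ) * c⌉₊
  have h3 : μ (fun _ => (q : ℝ) * c) ≤ μ (fun _ => ((⌈(q : ℝ) * c⌉₊ : ℕ) : ℝ) * 1) := by
    refine Sz_mean_mono μ hadd hpos _ _ ⟨|(q : ℝ) * c|, fun _ => le_rfl⟩
      ⟨|((⌈(q : ℝ) * c⌉₊ : ℕ) : ℝ) * 1|, fun _ => le_rfl⟩ (fun _ => ?_)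
    rw [mul_one]
    exact Nat.le_ceil _
  rw [h1, h2, hone, mul_one] at h3
  have h4 : ((⌈(q : ℝ) * c⌉₊ : ℕ) : ℝ) < q * c + 1 := Nat.ceil_lt_add_one (by positivity)
  have h5 : 1 < η * q := by
    rw [div_lt_iff₀ hη] at hq
    linarith
  by_contra hcon
  push Not at hcon
  nlinarith

theorem Sz_mean_sum {G X : Type*} (μ : (G → ℝ) → ℝ)
    (hadd : ∀ f g : G → ℝ, (∃ C, ∀ x, |f x| ≤ C) → (∃ C, ∀ x, |g x| ≤ C) →
      μ (fun x => f x + g x) = μ f + μ g) (s : Finset X) (f : X → G → ℝ)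
    (hf : ∀ x, ∃ C, ∀ v, |f x v| ≤ C) :
    μ (fun v => ∑ x ∈ s, f x v) = ∑ x ∈ s, μ (f x) := by
  classical
  induction s using Finset.induction_on with
  | empty =>
    have h := hadd (fun _ => 0) (fun _ => 0) ⟨0, by simp⟩ ⟨0, by simp⟩
    simp only [add_zero] at h
    simp only [Finset.sum_empty]
    linarith
  | insert a s ha ih =>
    choose C hC using hf
    have h := hadd (f a) (fun v => ∑ x ∈ s, f x v) ⟨C a, hC a⟩
      ⟨∑ x ∈ s, C x, fun v => le_trans (Finset.abs_sum_le_sum_abs _ _)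
        (Finset.sum_le_sum (fun x _ => hC x v))⟩
    simp only [Finset.sum_insert ha]
    rw [h, ih]

/-- Version for finitely additive translation invariant means on bounded functions. -/
theorem sz_mean {G : Type*} [AddCommGroup G] (μ : (G → ℝ) → ℝ)
    (hadd : ∀ f g : G → ℝ, (∃ C, ∀ x, |f x| ≤ C) → (∃ C, ∀ x, |g x| ≤ C) →
      μ (fun x => f x + g x) = μ f + μ g)
    (hpos : ∀ f : G → ℝ, (∃ C, ∀ x, |f x| ≤ C) → (∀ x, 0 ≤ f x) → 0 ≤ μ f)
    (hone : μ (fun _ => 1) = 1)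
    (hinv : ∀ (f : G → ℝ) (v : G), (∃ C, ∀ x, |f x| ≤ C) → μ (fun x => f (x + v)) = μ f)
    {J : Type} [Finite J] (e : J → G) (A : G → Prop) (hA : 0 < μ (ind A)) :
    ∃ (v : G) (s : ℕ), 1 ≤ s ∧ ∀ j, A (v + s • e j) := by
  classical
  rcases isEmpty_or_nonempty J with hJ | hJ
  · exact ⟨0, 1, le_rfl, fun j => (hJ.false j).elim⟩
  haveI := Fintype.ofFinite J
  have hib : ∀ x, |ind A x| ≤ 1 := fun x => by
    rw [abs_of_nonneg (ind_nonneg A x)]; exact ind_le_one A x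
  obtain ⟨n, hn⟩ := sz_avg J (δ := μ (ind A) / 2) (by linarith)
  have hK : (0 : ℝ) < (Fintype.card (Fin n → J) : ℝ) := by
    exact_mod_cast Fintype.card_pos
  have key : ∃ v, μ (ind A) / 2 ≤ dn (fun x : Fin n → J => A (v + ∑ i, e (x i))) := by
    by_contra hcon
    push Not at hcon
    have h1 : μ (fun v => ∑ x : Fin n → J, ind A (v + ∑ i, e (x i))) =
        (Fintype.card (Fin n → J) : ℝ) * μ (ind A) := by
      rw [Sz_mean_sum μ hadd Finset.univ (fun (x : Fin n → J) v => ind A (v + ∑ i, e (x i)))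
        (fun x => ⟨1, fun v => hib _⟩)]
      rw [Finset.sum_congr rfl (fun x _ => hinv (ind A) (∑ i, e (x i)) ⟨1, hib⟩)]
      simp [Finset.card_univ]
    have h2 : ∀ v, ∑ x : Fin n → J, ind A (v + ∑ i, e (x i)) ≤
        (Fintype.card (Fin n → J) : ℝ) * (μ (ind A) / 2) := by
      intro v
      have h3 := (hcon v).le
      unfold dn at h3
      rw [av_eq, div_le_iff₀ hK] at h3
      rw [mul_comm]
      exact h3
    have h3 := Sz_mean_mono μ hadd hpos
      (fun v => ∑ x : Fin n → J, ind A (v + ∑ i, e (x i)))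
      (fun _ => (Fintype.card (Fin n → J) : ℝ) * (μ (ind A) / 2))
      ⟨∑ x : Fin n → J, 1, fun v => le_trans (Finset.abs_sum_le_sum_abs _ _)
        (Finset.sum_le_sum (fun x _ => hib _))⟩
      ⟨|(Fintype.card (Fin n → J) : ℝ) * (μ (ind A) / 2)|, fun _ => le_rfl⟩ h2
    have h4 := Sz_mean_const μ hadd hpos hone
      ((Fintype.card (Fin n → J) : ℝ) * (μ (ind A) / 2)) (by positivity)
    rw [h1] at h3
    nlinarith
  obtain ⟨v, hv⟩ := key
  obtain ⟨v', s, hs1, _, hs2⟩ := hn G e A v hv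
  exact ⟨v', s, hs1, hs2⟩

/-- Finitary box version in `ℤ^d`. -/
theorem sz_box (d : ℕ) {J : Type} [Finite J] (e : J → (Fin d → ℤ)) {δ : ℝ} (hδ : 0 < δ) :
    ∃ N0 : ℕ, ∀ N : ℕ, N0 ≤ N → ∀ (w : Fin d → ℤ) (A : Finset (Fin d → ℤ)),
      (∀ x ∈ A, ∀ i, w i ≤ x i ∧ x i < w i + N) → δ * (N : ℝ) ^ d ≤ A.card →
      ∃ (v : Fin d → ℤ) (s : ℕ), 1 ≤ s ∧ ∀ j, v + s • e j ∈ A := by
  classical
  rcases isEmpty_or_nonempty J with hJ | hJ
  · exact ⟨0, fun _ _ _ _ _ _ => ⟨0, 1, le_rfl, fun j => (hJ.false j).elim⟩⟩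
  haveI := Fintype.ofFinite J
  obtain ⟨n, hn⟩ := sz_avg J (δ := δ / 2) (by linarith)
  have hK : (0 : ℝ) < (Fintype.card (Fin n → J) : ℝ) := by
    exact_mod_cast Fintype.card_pos
  -- a bound for the shifts
  set M : ℕ := ∑ j : J, ∑ i : Fin d, (e j i).natAbs with hM
  have hMb : ∀ j i, |e j i| ≤ (M : ℤ) := by
    intro j i
    have h1 : (e j i).natAbs ≤ ∑ i : Fin d, (e j i).natAbs :=
      Finset.single_le_sum (f := fun i : Fin d => (e j i).natAbs) (fun _ _ => Nat.zero_le _)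
        (Finset.mem_univ i)
    have h2 : ∑ i : Fin d, (e j i).natAbs ≤ M :=
      Finset.single_le_sum (f := fun j : J => ∑ i : Fin d, (e j i).natAbs)
        (fun _ _ => Nat.zero_le _) (Finset.mem_univ j)
    rw [Int.abs_eq_natAbs]
    exact_mod_cast le_trans h1 h2
  set R : ℕ := n * M with hR
  have hRb : ∀ (x : Fin n → J) (i : Fin d), |(∑ k, e (x k)) i| ≤ (R : ℤ) := by
    intro x i
    rw [Finset.sum_apply]
    refine le_trans (Finset.abs_sum_le_sum_abs _ _) ?_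
    refine le_trans (Finset.sum_le_sum (fun k _ => hMb (x k) i)) ?_
    simp [hR]
  refine ⟨4 * d * R + 1, ?_⟩
  intro N hN w A hA hcard
  have hN1 : 1 ≤ N := by omega
  -- the large box
  set B : Finset (Fin d → ℤ) :=
    Fintype.piFinset (fun i => Finset.Ico (w i - R) (w i + N + R)) with hB
  have hBcard : (B.card : ℝ) = ((N : ℝ) + 2 * R) ^ d := by
    rw [hB, Fintype.card_piFinset]
    have : ∀ i : Fin d, (Finset.Ico (w i - (R : ℤ)) (w i + N + R)).card = N + 2 * R := by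
      intro i
      rw [Int.card_Ico]
      have : w i + N + R - (w i - R) = ((N + 2 * R : ℕ) : ℤ) := by push_cast; ring
      rw [this, Int.toNat_natCast]
    simp only [this, Finset.prod_const, Finset.card_univ, Fintype.card_fin]
    push_cast; ring
  have hBne : B.Nonempty := by
    refine ⟨w, ?_⟩
    rw [hB, Fintype.mem_piFinset]
    intro i
    rw [Finset.mem_Ico]
    constructor <;> omega
  have hcount : ∀ c : Fin d → ℤ, (∀ i, |c i| ≤ (R : ℤ)) →
      ∑ v ∈ B, ind (fun x => x ∈ A) (v + c) = (A.card : ℝ) := by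
    intro c hc
    have e1 : ∀ v, ind (fun x => x ∈ A) (v + c) = if v + c ∈ A then 1 else 0 := by
      intro v
      by_cases h : v + c ∈ A
      · rw [ind_of h, if_pos h]
      · rw [ind_of_not h, if_neg h]
    simp only [e1]
    rw [← Finset.sum_filter, Finset.sum_const, nsmul_eq_mul, mul_one]
    congr 1
    refine Finset.card_bij' (fun v _ => v + c) (fun x _ => x - c) ?_ ?_ ?_ ?_
    · intro v hv
      exact (Finset.mem_filter.1 hv).2
    · intro x hx
      rw [Finset.mem_filter]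
      constructor
      · rw [hB, Fintype.mem_piFinset]
        intro i
        rw [Finset.mem_Ico]
        have h1 := hA x hx i
        have h2 := abs_le.1 (hc i)
        simp only [Pi.sub_apply]
        constructor <;> linarith
      · simpa using hx
    · intro v _
      simp
    · intro x _
      simp
  have hsum : ∑ v ∈ B, dn (fun x : Fin n → J => v + ∑ k, e (x k) ∈ A) = (A.card : ℝ) := by
    have e1 : ∀ v, dn (fun x : Fin n → J => v + ∑ k, e (x k) ∈ A) =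
        (∑ x : Fin n → J, ind (fun x => x ∈ A) (v + ∑ k, e (x k))) /
          (Fintype.card (Fin n → J) : ℝ) := by
      intro v
      unfold dn
      rw [av_eq]
      rfl
    simp only [e1]
    rw [← Finset.sum_div, Finset.sum_comm]
    rw [Finset.sum_congr rfl (fun x _ => hcount (∑ k, e (x k)) (hRb x))]
    rw [Finset.sum_const, Finset.card_univ, nsmul_eq_mul, mul_div_assoc, mul_div_cancel₀]
    exact hK.ne'
  have hpow : ((N : ℝ) + 2 * R) ^ d ≤ 2 * (N : ℝ) ^ d := by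
    have hNR : (0 : ℝ) < (N : ℝ) + 2 * R := by positivity
    have h1 : (1 : ℝ) + d * (-(2 * R / ((N : ℝ) + 2 * R))) ≤
        (1 + (-(2 * R / ((N : ℝ) + 2 * R)))) ^ d := by
      apply one_add_mul_le_pow
      have : 2 * R / ((N : ℝ) + 2 * R) ≤ 1 := by
        rw [div_le_one hNR]
        have : (0 : ℝ) ≤ N := Nat.cast_nonneg N
        linarith
      linarith
    have h2 : 1 + (-(2 * R / ((N : ℝ) + 2 * R))) = N / ((N : ℝ) + 2 * R) := by
      field_simp
      ring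
    have h3 : d * (2 * R / ((N : ℝ) + 2 * R)) ≤ 1 / 2 := by
      rw [← mul_div_assoc, div_le_div_iff₀ hNR (by norm_num)]
      have h4 : ((4 * d * R + 1 : ℕ) : ℝ) ≤ N := by exact_mod_cast hN
      push_cast at h4
      have h5 : (0 : ℝ) ≤ R := Nat.cast_nonneg R
      nlinarith
    rw [h2, div_pow] at h1
    have h4 : (1 : ℝ) / 2 ≤ (N : ℝ) ^ d / ((N : ℝ) + 2 * R) ^ d := by linarith
    rw [div_le_div_iff₀ (by norm_num) (by positivity)] at h4
    linarith
  have hle : ∑ _v ∈ B, δ / 2 ≤ ∑ v ∈ B, dn (fun x : Fin n → J => v + ∑ k, e (x k) ∈ A) := by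
    rw [hsum, Finset.sum_const, nsmul_eq_mul, hBcard]
    refine le_trans ?_ hcard
    nlinarith
  obtain ⟨v, _, hv⟩ := Finset.exists_le_of_sum_le hBne hle
  obtain ⟨v', s, hs1, _, hs2⟩ := hn (Fin d → ℤ) e (fun x => x ∈ A) v hv
  exact ⟨v', s, hs1, hs2⟩

end H62DHJ
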