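import Pool.Agent.H62.DHJ.Defs

/-!
# Basic facts on averages (H62/DHJ/Av)
-/

open Combinatorics

namespace H62DHJ

variable {X Y K : Type*}

theorem av_eq [Fintype X] (f : X → ℝ) : av f = (∑ x, f x) / (Fintype.card X : ℝ) := by
  unfold av
  rw [finsum_eq_sum_of_fintype, Nat.card_eq_fintype_card]

theorem av_mono [Finite X] {f g : X → ℝ} (h : ∀ x, f x ≤ g x) : av f ≤ av g := by
  cases nonempty_fintype X
  rw [av_eq, av_eq]
  gcongr with x
  exact h x

theorem av_add [Finite X] (f g : X → ℝ) : av (fun x => f x + g x) = av f + av g := by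
  cases nonempty_fintype X
  rw [av_eq, av_eq, av_eq, Finset.sum_add_distrib, add_div]

theorem av_sub [Finite X] (f g : X → ℝ) : av (fun x => f x - g x) = av f - av g := by
  cases nonempty_fintype X
  rw [av_eq, av_eq, av_eq, Finset.sum_sub_distrib, sub_div]

theorem av_mul_left [Finite X] (c : ℝ) (f : X → ℝ) : av (fun x => c * f x) = c * av f := by
  cases nonempty_fintype X
  rw [av_eq, av_eq, ← Finset.mul_sum, mul_div_assoc]

theorem av_mul_right [Finite X] (c : ℝ) (f : X → ℝ) : av (fun x => f x * c) = av f * c := by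
  cases nonempty_fintype X
  rw [av_eq, av_eq, ← Finset.sum_mul]
  ring

theorem av_const [Finite X] [Nonempty X] (c : ℝ) : av (fun _ : X => c) = c := by
  cases nonempty_fintype X
  rw [av_eq]
  have : (Fintype.card X : ℝ) ≠ 0 := by
    exact_mod_cast Fintype.card_ne_zero
  simp only [Finset.sum_const, Finset.card_univ, nsmul_eq_mul]
  field_simp

theorem av_nonneg {f : X → ℝ} (h : ∀ x, 0 ≤ f x) : 0 ≤ av f := by
  unfold av
  exact div_nonneg (finsum_nonneg h) (Nat.cast_nonneg _)

theorem av_le [Finite X] {f : X → ℝ} {c : ℝ} (hc : 0 ≤ c) (h : ∀ x, f x ≤ c) : av f ≤ c := by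
  rcases isEmpty_or_nonempty X with he | hne
  · unfold av
    simpa using hc
  · calc av f ≤ av (fun _ : X => c) := av_mono h
      _ = c := av_const c

theorem exists_av_le [Finite X] [Nonempty X] (f : X → ℝ) : ∃ x, av f ≤ f x := by
  by_contra hcon
  push Not at hcon
  cases nonempty_fintype X
  have h1 : ∑ x, f x < ∑ _x : X, av f :=
    Finset.sum_lt_sum_of_nonempty Finset.univ_nonempty (fun x _ => hcon x)
  have h2 : (Fintype.card X : ℝ) ≠ 0 := by exact_mod_cast Fintype.card_ne_zero
  have h3 : (∑ _x : X, av f) = ∑ x, f x := by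
    rw [Finset.sum_const, Finset.card_univ, nsmul_eq_mul, av_eq]
    field_simp
  linarith

theorem av_prod [Finite X] [Finite Y] (f : X × Y → ℝ) :
    av f = av (fun x => av (fun y => f (x, y))) := by
  cases nonempty_fintype X
  cases nonempty_fintype Y
  rw [av_eq, av_eq]
  simp only [av_eq]
  rw [← Finset.sum_div, Fintype.sum_prod_type, Fintype.card_prod, div_div]
  push_cast
  rw [mul_comm]

theorem av_comm [Finite X] [Finite Y] (f : X → Y → ℝ) :
    av (fun x => av (fun y => f x y)) = av (fun y => av (fun x => f x y)) := by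
  cases nonempty_fintype X
  cases nonempty_fintype Y
  simp only [av_eq]
  rw [← Finset.sum_div, ← Finset.sum_div, Finset.sum_comm, div_div, div_div, mul_comm]

theorem av_equiv (e : X ≃ Y) (f : Y → ℝ) : av (fun x => f (e x)) = av f := by
  unfold av
  rw [finsum_comp_equiv e, Nat.card_congr e]

theorem av_sum [Finite X] (s : Finset K) (f : K → X → ℝ) :
    av (fun x => ∑ k ∈ s, f k x) = ∑ k ∈ s, av (f k) := by
  cases nonempty_fintype X
  simp only [av_eq]
  rw [Finset.sum_comm, Finset.sum_div]

theorem av_split {β ι ι' : Type} [Finite β] [Finite ι] [Finite ι'] (f : (ι ⊕ ι' → β) → ℝ) :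
    av f = av (fun x : ι → β => av (fun y : ι' → β => f (Sum.elim x y))) := by
  rw [← av_equiv (Equiv.sumArrowEquivProdArrow ι ι' β).symm f, av_prod]
  rfl

theorem av_split' {β ι ι' : Type} [Finite β] [Finite ι] [Finite ι'] (f : (ι ⊕ ι' → β) → ℝ) :
    av f = av (fun y : ι' → β => av (fun x : ι → β => f (Sum.elim x y))) := by
  rw [av_split, av_comm]

/-- reindexing of the coordinates -/
theorem av_reindex {β ι κ : Type} (e : ι ≃ κ) (f : (κ → β) → ℝ) :
    av (fun x : ι → β => f (x ∘ e.symm)) = av f :=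
  av_equiv (e.arrowCongr (Equiv.refl β)) f

theorem ind_nonneg (A : X → Prop) (x : X) : 0 ≤ ind A x := by
  unfold ind
  split_ifs <;> norm_num

theorem ind_le_one (A : X → Prop) (x : X) : ind A x ≤ 1 := by
  unfold ind
  split_ifs <;> norm_num

theorem ind_of {A : X → Prop} {x : X} (h : A x) : ind A x = 1 := by
  simp [ind, h]

theorem ind_of_not {A : X → Prop} {x : X} (h : ¬ A x) : ind A x = 0 := by
  simp [ind, h]

theorem dn_nonneg (A : X → Prop) : 0 ≤ dn A := av_nonneg (ind_nonneg A)

theorem dn_le_one [Finite X] (A : X → Prop) : dn A ≤ 1 := av_le zero_le_one (ind_le_one A)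

theorem dn_mono [Finite X] {A B : X → Prop} (h : ∀ x, A x → B x) : dn A ≤ dn B := by
  apply av_mono
  intro x
  by_cases hA : A x
  · rw [ind_of hA, ind_of (h x hA)]
  · rw [ind_of_not hA]
    exact ind_nonneg B x

theorem dn_not [Finite X] [Nonempty X] (A : X → Prop) : dn (fun x => ¬ A x) = 1 - dn A := by
  have h : ind (fun x => ¬ A x) = fun x => (1 : ℝ) - ind A x := by
    funext x
    by_cases hA : A x
    · rw [ind_of hA, ind_of_not (A := fun x => ¬ A x) (not_not.mpr hA)]
      norm_num
    · rw [ind_of_not hA, ind_of (A := fun x => ¬ A x) hA]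
      norm_num
  unfold dn
  rw [h, av_sub, av_const]

theorem dn_true [Finite X] [Nonempty X] : dn (fun _ : X => True) = 1 := by
  have h : ind (fun _ : X => True) = fun _ => (1 : ℝ) := by
    funext x
    exact ind_of trivial
  unfold dn
  rw [h, av_const]

theorem dn_equiv (e : X ≃ Y) (A : Y → Prop) : dn (fun x => A (e x)) = dn A :=
  av_equiv e (ind A)

theorem dn_pos_exists {A : X → Prop} (h : 0 < dn A) : ∃ x, A x := by
  by_contra hcon
  push Not at hcon
  have h0 : ind A = fun _ => (0 : ℝ) := by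
    funext x
    exact ind_of_not (hcon x)
  unfold dn av at h
  rw [h0] at h
  simp at h

/-- the density of `A` on a product of index types -/
theorem dn_split {β ι ι' : Type} [Finite β] [Finite ι] [Finite ι'] (A : (ι ⊕ ι' → β) → Prop) :
    dn A = av (fun x : ι → β => dn (fun y : ι' → β => A (Sum.elim x y))) :=
  av_split (ind A)

theorem dn_split' {β ι ι' : Type} [Finite β] [Finite ι] [Finite ι'] (A : (ι ⊕ ι' → β) → Prop) :
    dn A = av (fun y : ι' → β => dn (fun x : ι → β => A (Sum.elim x y))) :=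
  av_split' (ind A)

theorem dn_reindex {β ι κ : Type} (e : ι ≃ κ) (A : (κ → β) → Prop) :
    dn (fun x : ι → β => A (x ∘ e.symm)) = dn A :=
  av_reindex e (ind A)

/-- Markov's inequality in the form used for fibres. -/
theorem markov [Finite X] {f : X → ℝ} {δ : ℝ} (h1 : ∀ x, f x ≤ 1) (hδ : 0 ≤ δ)
    (h : δ ≤ av f) : δ / 2 ≤ dn (fun x => δ / 2 ≤ f x) := by
  rcases isEmpty_or_nonempty X with he | hne
  · have h0 : av f = 0 := by
      unfold av
      simp
    have h2 := dn_nonneg (fun x => δ / 2 ≤ f x)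
    linarith
  · have h2 : av f ≤ av (fun x => δ / 2 + ind (fun x => δ / 2 ≤ f x) x) := by
      apply av_mono
      intro x
      by_cases hx : δ / 2 ≤ f x
      · have h5 : ind (fun x => δ / 2 ≤ f x) x = 1 := ind_of hx
        rw [h5]
        have := h1 x
        linarith
      · have h5 : ind (fun x => δ / 2 ≤ f x) x = 0 := ind_of_not hx
        rw [h5]
        push Not at hx
        linarith
    rw [av_add, av_const] at h2
    have h3 : av (fun x => ind (fun x => δ / 2 ≤ f x) x) = dn (fun x => δ / 2 ≤ f x) := rfl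
    linarith

/-- The pigeonhole principle for finitely many events. -/
theorem pigeon [Finite X] [Finite K] (A : X → Prop) (B : K → X → Prop)
    (h : ∀ x, A x → ∃ k, B k x) {c : ℝ} (hc : 0 < c) (hA : c ≤ dn A) :
    ∃ k, c / (Nat.card K : ℝ) ≤ dn (B k) := by
  cases nonempty_fintype K
  obtain ⟨x0, hx0⟩ := dn_pos_exists (lt_of_lt_of_le hc hA)
  obtain ⟨k0, _⟩ := h x0 hx0
  have : Nonempty K := ⟨k0⟩
  by_contra hcon
  push Not at hcon
  have h1 : dn A ≤ ∑ k, dn (B k) := by
    have h2 : av (ind A) ≤ av (fun x => ∑ k, ind (B k) x) := by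
      apply av_mono
      intro x
      by_cases hx : A x
      · obtain ⟨k, hk⟩ := h x hx
        rw [ind_of hx, ← ind_of (A := B k) hk]
        exact Finset.single_le_sum (f := fun k => ind (B k) x) (fun k _ => ind_nonneg (B k) x)
          (Finset.mem_univ k)
      · rw [ind_of_not hx]
        exact Finset.sum_nonneg (fun k _ => ind_nonneg (B k) x)
    rw [av_sum] at h2
    exact h2
  have h3 : ∑ k, dn (B k) < ∑ _k : K, c / (Nat.card K : ℝ) :=
    Finset.sum_lt_sum_of_nonempty Finset.univ_nonempty (fun k _ => hcon k)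
  have h4 : (Nat.card K : ℝ) ≠ 0 := by
    exact_mod_cast Nat.card_pos.ne'
  have h5 : (∑ _k : K, c / (Nat.card K : ℝ)) = c := by
    rw [Finset.sum_const, Finset.card_univ, nsmul_eq_mul, Nat.card_eq_fintype_card] at *
    field_simp
  linarith

/-- If `f ≤ b` everywhere and `a ≤ av f`, then `f` is bounded below pointwise. -/
theorem av_low [Finite X] {f : X → ℝ} {a b : ℝ} (h : ∀ x, f x ≤ b) (ha : a ≤ av f) (x : X) :
    b - (Nat.card X : ℝ) * (b - a) ≤ f x := by
  classical
  cases nonempty_fintype X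
  have : Nonempty X := ⟨x⟩
  have hc : (0 : ℝ) < (Fintype.card X : ℝ) := by exact_mod_cast Fintype.card_pos
  rw [av_eq, le_div_iff₀ hc] at ha
  have h1 : ∑ y, f y = f x + ∑ y ∈ Finset.univ.erase x, f y :=
    (Finset.add_sum_erase Finset.univ f (Finset.mem_univ x)).symm
  have h2 : ∑ y ∈ Finset.univ.erase x, f y ≤ ∑ _y ∈ Finset.univ.erase x, b :=
    Finset.sum_le_sum (fun y _ => h y)
  have h3 : (∑ _y ∈ Finset.univ.erase x, b) = ((Fintype.card X : ℝ) - 1) * b := by
    rw [Finset.sum_const, Finset.card_erase_of_mem (Finset.mem_univ x), Finset.card_univ,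
      nsmul_eq_mul, Nat.cast_sub (Nat.succ_le_of_lt Fintype.card_pos)]
    norm_num
  rw [Nat.card_eq_fintype_card]
  nlinarith

/-- every finite type with at least `n` elements splits off `Fin n` -/
theorem exists_split (n k : ℕ) (ι : Type) [Finite ι] (h : n + k ≤ Nat.card ι) :
    ∃ (ι' : Type) (_ : Finite ι') (_ : (Fin n ⊕ ι') ≃ ι), k ≤ Nat.card ι' := by
  refine ⟨Fin (Nat.card ι - n), inferInstance, ?_, ?_⟩
  · exact (finSumFinEquiv.trans (finCongr (by omega))).trans (Finite.equivFin ι).symm
  · simp only [Nat.card_fin]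
    omega

end H62DHJ
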