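import Pool.Agent.H62.DHJ.Av

/-!
# Averages over words: resampling a row, merging, restriction, tails (H62/DHJ/AvB)
-/

open Combinatorics

namespace H62DHJ

/-- the involution used for resampling a row -/
private def AvB_rowE {β : Type} {M m : ℕ} (i0 : Fin M) :
    ((Fin M × Fin m → β) × (Fin m → β)) ≃ ((Fin M × Fin m → β) × (Fin m → β)) where
  toFun p := (row i0 p.2 p.1, fun j => p.1 (i0, j))
  invFun p := (row i0 p.2 p.1, fun j => p.1 (i0, j))
  left_inv := by
    rintro ⟨u, u0⟩
    refine Prod.ext ?_ ?_
    · funext q
      show (if q.1 = i0 then u (i0, q.2) else row i0 u0 u q) = u q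
      by_cases h : q.1 = i0
      · rw [if_pos h, ← h]
      · rw [if_neg h]
        show (if q.1 = i0 then u0 q.2 else u q) = u q
        rw [if_neg h]
    · funext j
      show (if i0 = i0 then u0 j else u (i0, j)) = u0 j
      rw [if_pos rfl]
  right_inv := by
    rintro ⟨u, u0⟩
    refine Prod.ext ?_ ?_
    · funext q
      show (if q.1 = i0 then u (i0, q.2) else row i0 u0 u q) = u q
      by_cases h : q.1 = i0
      · rw [if_pos h, ← h]
      · rw [if_neg h]
        show (if q.1 = i0 then u0 q.2 else u q) = u q
        rw [if_neg h]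
    · funext j
      show (if i0 = i0 then u0 j else u (i0, j)) = u0 j
      rw [if_pos rfl]

/-- Resampling the row `i0` preserves the average. -/
theorem av_row {β : Type} [Finite β] [Nonempty β] {M m : ℕ} (i0 : Fin M)
    (f : (Fin M × Fin m → β) → ℝ) :
    av (fun u : Fin M × Fin m → β => av (fun u0 : Fin m → β => f (row i0 u0 u))) = av f := by
  have h1 := av_prod (fun p : (Fin M × Fin m → β) × (Fin m → β) => f (row i0 p.2 p.1))
  have h2 := av_equiv (AvB_rowE (β := β) (m := m) i0) (fun p => f p.1)
  have h3 := av_prod (fun p : (Fin M × Fin m → β) × (Fin m → β) => f p.1)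
  have h4 : (fun p : (Fin M × Fin m → β) × (Fin m → β) => f (row i0 p.2 p.1)) =
      fun p => f (AvB_rowE (β := β) (m := m) i0 p).1 := rfl
  rw [← h1, h4, h2, h3]
  congr 1
  funext u
  exact av_const (f u)

/-- Replace the non-`none` letters of `z` by the letters of `u`. -/
def merge {α ι : Type} (z : ι → Option α) (u : ι → α) : ι → Option α :=
  fun i => (z i).map (fun _ => u i)

/-- the involution used for merging -/
private def AvB_mergeE {α ι : Type} : ((ι → Option α) × (ι → α)) ≃ ((ι → Option α) × (ι → α)) where
  toFun p := (merge p.1 p.2, fun i => (p.1 i).getD (p.2 i))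
  invFun p := (merge p.1 p.2, fun i => (p.1 i).getD (p.2 i))
  left_inv := by
    rintro ⟨z, u⟩
    refine Prod.ext ?_ ?_
    · funext i
      show ((z i).map (fun _ => u i)).map (fun _ => (z i).getD (u i)) = z i
      cases z i <;> rfl
    · funext i
      show ((z i).map (fun _ => u i)).getD ((z i).getD (u i)) = u i
      cases z i <;> rfl
  right_inv := by
    rintro ⟨z, u⟩
    refine Prod.ext ?_ ?_
    · funext i
      show ((z i).map (fun _ => u i)).map (fun _ => (z i).getD (u i)) = z i
      cases z i <;> rfl
    · funext i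
      show ((z i).map (fun _ => u i)).getD ((z i).getD (u i)) = u i
      cases z i <;> rfl

/-- Merging preserves the average (the map `(z_i,u_i) ↦ (merged letter, the other letter)` is an
involution of `Option α × α`). -/
theorem av_merge {α ι : Type} [Finite α] [Nonempty α] [Finite ι] (f : (ι → Option α) → ℝ) :
    av (fun z : ι → Option α => av (fun u : ι → α => f (merge z u))) = av f := by
  have h1 := av_prod (fun p : (ι → Option α) × (ι → α) => f (merge p.1 p.2))
  have h2 := av_equiv (AvB_mergeE (α := α) (ι := ι)) (fun p => f p.1)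
  have h3 := av_prod (fun p : (ι → Option α) × (ι → α) => f p.1)
  have h4 : (fun p : (ι → Option α) × (ι → α) => f (merge p.1 p.2)) =
      fun p => f (AvB_mergeE (α := α) (ι := ι) p).1 := rfl
  rw [← h1, h4, h2, h3]
  congr 1
  funext z
  exact av_const (f z)

/-- The average of a function of the restriction to `T`. -/
theorem av_restrict {α ι : Type} [Finite α] [Nonempty α] [Finite ι] (T : ι → Prop)
    (f : ({i // T i} → α) → ℝ) :
    av (fun u : ι → α => f (fun i => u i.1)) = av f := by
  classical
  have h2 := av_equiv (Equiv.piEquivPiSubtypeProd T (fun _ : ι => α)) (fun p => f p.1)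
  have h3 := av_prod (fun p : ({i // T i} → α) × ({i // ¬ T i} → α) => f p.1)
  have h4 : (fun u : ι → α => f (fun i => u i.1)) =
      fun u => f (Equiv.piEquivPiSubtypeProd T (fun _ : ι => α) u).1 := rfl
  rw [h4, h2, h3]
  congr 1
  funext x
  exact av_const (f x)

private theorem AvB_dn_single {X : Type} [Finite X] (v : X) :
    dn (fun x => x = v) = 1 / (Nat.card X : ℝ) := by
  classical
  have := Fintype.ofFinite X
  unfold dn
  rw [av_eq, Nat.card_eq_fintype_card]
  congr 1
  rw [Finset.sum_eq_single v]
  · exact ind_of rfl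
  · intro x _ hx
    exact ind_of_not hx
  · intro h
    exact absurd (Finset.mem_univ v) h

private theorem AvB_dn_union {X : Type} [Finite X] {N : ℕ} (A : X → Prop) (B : Fin N → X → Prop)
    (h : ∀ x, A x → ∃ j, B j x) : dn A ≤ ∑ j, dn (B j) := by
  unfold dn
  rw [← av_sum]
  apply av_mono
  intro x
  by_cases hx : A x
  · obtain ⟨j, hj⟩ := h x hx
    rw [ind_of hx, ← ind_of hj]
    exact Finset.single_le_sum (f := fun k => ind (B k) x) (fun k _ => ind_nonneg (B k) x)
      (Finset.mem_univ j)
  · rw [ind_of_not hx]
    exact Finset.sum_nonneg fun k _ => ind_nonneg (B k) x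

private theorem AvB_block {α ι : Type} [Finite α] [Nonempty α] [Finite ι] {K : ℕ} (c : Fin K → ι)
    (hc : Function.Injective c) :
    dn (fun z : ι → Option α => ∀ k, z (c k) = none) = (1 / (Nat.card (Option α) : ℝ)) ^ K := by
  have h1 := av_restrict (α := Option α) (fun i => ∃ k, c k = i)
    (ind fun v : {i // ∃ k, c k = i} → Option α => v = fun _ => none)
  have h2 : (fun u : ι → Option α => ind (fun v : {i // ∃ k, c k = i} → Option α =>
      v = fun _ => none) (fun i => u i.1)) = ind (fun z : ι → Option α => ∀ k, z (c k) = none) := by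
    funext u
    by_cases hu : ∀ k, u (c k) = none
    · have a1 : ind (fun z : ι → Option α => ∀ k, z (c k) = none) u = 1 := ind_of hu
      rw [a1]
      apply ind_of
      funext i
      obtain ⟨i, k, rfl⟩ := i
      exact hu k
    · have a1 : ind (fun z : ι → Option α => ∀ k, z (c k) = none) u = 0 := ind_of_not hu
      rw [a1]
      apply ind_of_not
      intro h
      apply hu
      intro k
      exact congrFun h ⟨c k, k, rfl⟩
  have h3 : dn (fun z : ι → Option α => ∀ k, z (c k) = none) =
      dn (fun v : {i // ∃ k, c k = i} → Option α => v = fun _ => none) := by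
    unfold dn
    rw [← h1, h2]
  rw [h3, AvB_dn_single, Nat.card_fun]
  have h4 : Nat.card {i // ∃ k, c k = i} = K := by
    have := Nat.card_congr (Equiv.ofInjective c hc)
    rw [Nat.card_fin] at this
    exact this.symm
  rw [h4]
  push_cast
  rw [one_div, one_div, inv_pow]

/-- For long words, the number of letters different from `none` is at least `N` with probability
close to `1`. -/
theorem tail {α : Type} [Finite α] [Nonempty α] (N : ℕ) {ε : ℝ} (hε : 0 < ε) :
    ∃ n : ℕ, ∀ (ι : Type) [Finite ι], n ≤ Nat.card ι →
      dn (fun z : ι → Option α => Nat.card {i // z i ≠ none} < N) ≤ ε := by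
  have hq : (2 : ℝ) ≤ Nat.card (Option α) := by
    have : 2 ≤ Nat.card (Option α) := by
      have h1 : 0 < Nat.card α := Nat.card_pos
      have h2 : Nat.card (Option α) = Nat.card α + 1 := Finite.card_option
      omega
    exact_mod_cast this
  have hq1 : 1 / (Nat.card (Option α) : ℝ) < 1 := by
    rw [div_lt_one (by linarith)]
    linarith
  obtain ⟨K, hK⟩ := exists_pow_lt_of_lt_one (show (0 : ℝ) < ε / (N + 1) by positivity) hq1
  refine ⟨N * K, fun ι _ hι => ?_⟩
  obtain ⟨ι', _, e, _⟩ := exists_split (N * K) 0 ι (by omega)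
  let c : Fin N → Fin K → ι := fun j k => e (Sum.inl (finProdFinEquiv (j, k)))
  have hc : ∀ j k j' k', c j k = c j' k' → j = j' ∧ k = k' := by
    intro j k j' k' h
    have h1 := Sum.inl_injective (e.injective h)
    have h2 := finProdFinEquiv.injective h1
    exact ⟨congrArg Prod.fst h2, congrArg Prod.snd h2⟩
  have h1 : dn (fun z : ι → Option α => Nat.card {i // z i ≠ none} < N) ≤
      ∑ j : Fin N, dn (fun z : ι → Option α => ∀ k, z (c j k) = none) := by
    apply AvB_dn_union
    intro z hz
    by_contra hcon
    push Not at hcon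
    choose k hk using hcon
    have h2 : Function.Injective (fun j : Fin N => (⟨c j (k j), hk j⟩ : {i // z i ≠ none})) := by
      intro j j' h
      exact (hc _ _ _ _ (congrArg Subtype.val h)).1
    have h3 := Nat.card_le_card_of_injective _ h2
    rw [Nat.card_fin] at h3
    exact absurd hz (not_lt.2 h3)
  have h2 : ∀ j : Fin N, dn (fun z : ι → Option α => ∀ k, z (c j k) = none) =
      (1 / (Nat.card (Option α) : ℝ)) ^ K := fun j =>
    AvB_block (c j) fun k k' h => (hc _ _ _ _ h).2
  rw [Finset.sum_congr rfl (fun j _ => h2 j), Finset.sum_const, Finset.card_univ,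
    Fintype.card_fin, nsmul_eq_mul] at h1
  refine h1.trans ?_
  have hN : (0 : ℝ) ≤ N := Nat.cast_nonneg N
  calc (N : ℝ) * (1 / (Nat.card (Option α) : ℝ)) ^ K
      ≤ (N + 1) * (1 / (Nat.card (Option α) : ℝ)) ^ K := by
        apply mul_le_mul_of_nonneg_right (by linarith)
        positivity
    _ ≤ (N + 1) * (ε / (N + 1)) := mul_le_mul_of_nonneg_left hK.le (by linarith)
    _ = ε := by field_simp

/-- Average over the range of a subspace. -/
theorem av_range {β η ι : Type} [Finite β] [Nonempty β] [Finite η] [Finite ι]
    (V : Subspace η β ι) (f : (ι → β) → ℝ) :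
    av (fun x => f x * ind (fun x => ∃ u, V u = x) x) =
      ((Nat.card (η → β) : ℝ) / (Nat.card (ι → β) : ℝ)) * av (fun u => f (V u)) := by
  classical
  have := Fintype.ofFinite (ι → β)
  have := Fintype.ofFinite (η → β)
  have hη : (Nat.card (η → β) : ℝ) ≠ 0 := by
    have : 0 < Nat.card (η → β) := Nat.card_pos
    exact_mod_cast this.ne'
  have hsum : ∑ x : ι → β, f x * ind (fun x => ∃ u, V u = x) x = ∑ u : η → β, f (V u) := by
    have h1 : ∑ u : η → β, f (V u) =
        ∑ x ∈ Finset.univ.image (fun u : η → β => V u), f x := by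
      rw [Finset.sum_image]
      intro u _ u' _ h
      exact sub_inj V h
    rw [h1, ← Finset.sum_subset (Finset.subset_univ (Finset.univ.image (fun u : η → β => V u)))]
    · apply Finset.sum_congr rfl
      intro x hx
      obtain ⟨u, _, hu⟩ := Finset.mem_image.1 hx
      have h2 : ind (fun x => ∃ u : η → β, V u = x) x = 1 := ind_of ⟨u, hu⟩
      rw [h2, mul_one]
    · intro x _ hx
      have h2 : ind (fun x => ∃ u : η → β, V u = x) x = 0 := by
        apply ind_of_not
        rintro ⟨u, hu⟩
        exact hx (Finset.mem_image.2 ⟨u, Finset.mem_univ _, hu⟩)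
      rw [h2, mul_zero]
  rw [av_eq, av_eq, hsum, ← Nat.card_eq_fintype_card, ← Nat.card_eq_fintype_card]
  field_simp

end H62DHJ
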