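import Pool.Agent.H62.DHJ.Words
import Pool.Agent.H62.DHJ.AvB

/-!
# The correlation step (H62/DHJ/Corr)
-/

open Combinatorics

namespace H62DHJ

/-- Given a popular line, there are a dense line-free `A'` and insensitive sets `D a` with dense
intersection disjoint from `A'` (final averaging of the correlation step). -/
theorem corr_final {α ι' : Type} [Finite α] [Nonempty α] [Finite ι'] {M m : ℕ}
    (A : ((Fin M ⊕ (Fin M × Fin m)) ⊕ ι' → Option α) → Prop) (hA : LF A)
    (l : Line α (Fin M)) {δ ε g Θ ε' : ℝ} (hΘ : 0 < Θ) (hΘ1 : Θ ≤ 1) (hε' : 0 < ε') (hg : 0 ≤ g)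
    (hε : 0 ≤ ε)
    (hlow : ∀ z, δ - ε ≤ dn (fun y : ι' → Option α => A (Sum.elim z y)))
    (hup : ∀ A' : (Fin m → Option α) → Prop, LF A' → dn A' ≤ δ + g)
    (hpar : ε + g ≤ Θ * ε' / 2)
    (hpop : Θ ≤ dn (fun p : (Fin M × Fin m → Option α) × (ι' → Option α) =>
      ∀ a, A (Sum.elim (pre (lup l (some a)) p.1) p.2))) :
    ∃ (A' : (Fin m → Option α) → Prop) (D : α → (Fin m → Option α) → Prop),
      LF A' ∧ δ - ε' ≤ dn A' ∧ (∀ a, Ins a (D a)) ∧ Θ / 2 ≤ dn (fun x => ∀ a, D a x) ∧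
      ∀ x, A' x → ¬ ∀ a, D a x := by
  obtain ⟨i0, hi0⟩ := l.proper
  -- the averages over `(y, u)`
  have hP : Θ ≤ av (fun y : ι' → Option α => av (fun u : Fin M × Fin m → Option α =>
      dn (fun u0 : Fin m → Option α =>
        ∀ a, A (Sum.elim (pre (lup l (some a)) (row i0 u0 u)) y)))) := by
    refine le_trans hpop (le_of_eq ?_)
    unfold dn
    rw [av_prod, av_comm (f := fun (u : Fin M × Fin m → Option α) (y : ι' → Option α) =>
      ind (fun p : (Fin M × Fin m → Option α) × (ι' → Option α) =>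
        ∀ a, A (Sum.elim (pre (lup l (some a)) p.1) p.2)) (u, y))]
    congr 1
    funext y
    rw [← av_row i0 (fun u : Fin M × Fin m → Option α =>
      ind (fun p : (Fin M × Fin m → Option α) × (ι' → Option α) =>
        ∀ a, A (Sum.elim (pre (lup l (some a)) p.1) p.2)) (u, y))]
    rfl
  have hQ : δ - ε ≤ av (fun y : ι' → Option α => av (fun u : Fin M × Fin m → Option α =>
      dn (fun u0 : Fin m → Option α =>
        A (Sum.elim (pre (lup l none) (row i0 u0 u)) y)))) := by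
    have h1 : δ - ε ≤ av (fun u : Fin M × Fin m → Option α =>
        dn (fun y : ι' → Option α => A (Sum.elim (pre (lup l none) u) y))) := by
      rw [← av_const (X := Fin M × Fin m → Option α) (δ - ε)]
      exact av_mono (fun u => hlow _)
    refine le_trans h1 (le_of_eq ?_)
    unfold dn
    rw [av_comm (f := fun (u : Fin M × Fin m → Option α) (y : ι' → Option α) =>
      ind (fun y : ι' → Option α => A (Sum.elim (pre (lup l none) u) y)) y)]
    congr 1
    funext y
    rw [← av_row i0 (fun u : Fin M × Fin m → Option α =>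
      ind (fun y : ι' → Option α => A (Sum.elim (pre (lup l none) u) y)) y)]
    rfl
  set dD : (ι' → Option α) → (Fin M × Fin m → Option α) → ℝ := fun y u =>
    dn (fun u0 : Fin m → Option α =>
        ∀ a, A (Sum.elim (pre (lup l (some a)) (row i0 u0 u)) y)) with hdD
  set dA : (ι' → Option α) → (Fin M × Fin m → Option α) → ℝ := fun y u =>
    dn (fun u0 : Fin m → Option α =>
        A (Sum.elim (pre (lup l none) (row i0 u0 u)) y)) with hdA
  change Θ ≤ av (fun y => av (fun u => dD y u)) at hP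
  change δ - ε ≤ av (fun y => av (fun u => dA y u)) at hQ
  -- the combined average
  have hF : av (fun y => av (fun u => dD y u - ((δ + g) / ε' - (1 / ε') * dA y u))) =
      av (fun y => av (fun u => dD y u)) -
        ((δ + g) / ε' - (1 / ε') * av (fun y => av (fun u => dA y u))) := by
    have e1 : ∀ y, av (fun u => dD y u - ((δ + g) / ε' - (1 / ε') * dA y u)) =
        av (fun u => dD y u) - ((δ + g) / ε' - (1 / ε') * av (fun u => dA y u)) := by
      intro y
      rw [av_sub, av_sub, av_const, av_mul_left]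
    simp only [e1]
    rw [av_sub, av_sub, av_const, av_mul_left]
  obtain ⟨y, hy⟩ := exists_av_le
    (fun y => av (fun u => dD y u - ((δ + g) / ε' - (1 / ε') * dA y u)))
  obtain ⟨u, hu⟩ := exists_av_le (fun u => dD y u - ((δ + g) / ε' - (1 / ε') * dA y u))
  have hLF : LF (fun u0 : Fin m → Option α =>
      A (Sum.elim (pre (lup l none) (row i0 u0 u)) y)) := by
    obtain ⟨V, hV⟩ := exists_sub l i0 hi0 u y
    have := LF.comp_sub hA V
    simpa only [hV] using this
  have hup' := hup _ hLF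
  change dA y u ≤ δ + g at hup'
  have hmain : Θ / 2 ≤ dD y u - (δ + g - dA y u) / ε' := by
    have h1 := le_trans hy hu
    rw [hF] at h1
    have h2 : dD y u - ((δ + g) / ε' - (1 / ε') * dA y u) = dD y u - (δ + g - dA y u) / ε' := by
      ring
    rw [h2] at h1
    refine le_trans ?_ h1
    have h3 : (δ + g) / ε' - 1 / ε' * av (fun y => av (fun u => dA y u)) ≤ Θ / 2 := by
      have : (δ + g) / ε' - 1 / ε' * av (fun y => av (fun u => dA y u)) =
          (δ + g - av (fun y => av (fun u => dA y u))) / ε' := by ring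
      rw [this, div_le_iff₀ hε']
      nlinarith
    linarith
  have hnn : 0 ≤ (δ + g - dA y u) / ε' := div_nonneg (by linarith) hε'.le
  have hD1 : dD y u ≤ 1 := dn_le_one _
  refine ⟨fun u0 => A (Sum.elim (pre (lup l none) (row i0 u0 u)) y),
    fun a u0 => A (Sum.elim (pre (lup l (some a)) (row i0 u0 u)) y), hLF, ?_, ?_, ?_, ?_⟩
  · change δ - ε' ≤ dA y u
    have h1 : (δ + g - dA y u) / ε' ≤ 1 := by linarith
    rw [div_le_iff₀ hε'] at h1
    linarith
  · intro a
    exact ins_D A l i0 hi0 u y a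
  · change Θ / 2 ≤ dD y u
    linarith
  · intro u0 h1 h2
    obtain ⟨w, hw⟩ := exists_line l (row i0 u0 u) y
    refine hA w ?_
    intro c
    rw [hw]
    cases c with
    | none => exact h1
    | some a => exact h2 a

/-- The correlation step. -/
theorem corr {α : Type} [Finite α] [Nonempty α] (hD : DHJ α) {δ : ℝ}
    (hδ : IsCrit (Option α) δ) :
    ∃ Θ : ℝ, 0 < Θ ∧ ∀ ε' : ℝ, 0 < ε' → ∃ m1 : ℕ, ∀ m : ℕ, m1 ≤ m →
      ∃ (A' : (Fin m → Option α) → Prop) (D : α → (Fin m → Option α) → Prop),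
        LF A' ∧ δ - ε' ≤ dn A' ∧ (∀ a, Ins a (D a)) ∧ Θ ≤ dn (fun x => ∀ a, D a x) ∧
        ∀ x, A' x → ¬ ∀ a, D a x := by
  obtain ⟨hδ0, hupper, hlower⟩ := hδ
  have hδ2 : δ ≤ 2 := by
    obtain ⟨ι, _, _, A, _, h⟩ := hlower 1 one_pos 0
    have := dn_le_one A
    linarith
  obtain ⟨M, hM⟩ := hD (δ / 4) (by linarith)
  have hM' : ∀ A : (Fin M → α) → Prop, δ / 4 ≤ dn A → ∃ l : Line α (Fin M), ∀ a, A (l a) :=
    fun A h => hM (Fin M) (by simp) A h
  have hLne : Nonempty (Line α (Fin M)) := by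
    obtain ⟨l, _⟩ := hM' (fun _ => True) (by rw [dn_true]; linarith)
    exact ⟨l⟩
  have hLpos : (0 : ℝ) < (Nat.card (Line α (Fin M)) : ℝ) := by
    exact_mod_cast Nat.card_pos
  set Θ0 : ℝ := δ / 4 / (Nat.card (Line α (Fin M)) : ℝ) with hΘ0
  have hΘ0pos : 0 < Θ0 := div_pos (by linarith) hLpos
  set Θ1 : ℝ := min Θ0 1 with hΘ1
  have hΘ1pos : 0 < Θ1 := lt_min hΘ0pos one_pos
  have hΘ1le : Θ1 ≤ 1 := min_le_right _ _
  have hΘ1le0 : Θ1 ≤ Θ0 := min_le_left _ _
  refine ⟨Θ1 / 2, by positivity, ?_⟩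
  intro ε' hε'
  have hgpos : 0 < Θ1 * ε' / 4 := by positivity
  obtain ⟨m1, hm1⟩ := hupper (Θ1 * ε' / 4) hgpos
  refine ⟨m1, ?_⟩
  intro m hm
  have hup : ∀ A' : (Fin m → Option α) → Prop, LF A' → dn A' ≤ δ + Θ1 * ε' / 4 :=
    fun A' h => hm1 (Fin m) (by simpa using hm) A' h
  set Q : ℝ := (Nat.card ((Fin M ⊕ (Fin M × Fin m)) → Option α) : ℝ) with hQ
  have hQpos : 0 < Q := by
    rw [hQ]
    exact_mod_cast Nat.card_pos
  set c : ℝ := min (Θ1 * ε' / 4) (δ / 2) with hc
  have hcpos : 0 < c := lt_min hgpos (by linarith)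
  have hc1 : c ≤ Θ1 * ε' / 4 := min_le_left _ _
  have hc2 : c ≤ δ / 2 := min_le_right _ _
  set γ : ℝ := c / (2 * Q) with hγ
  have hγpos : 0 < γ := by positivity
  have hγc : 2 * γ * Q = c := by
    rw [hγ]; field_simp
  obtain ⟨n, hn⟩ := hupper γ hγpos
  obtain ⟨ι, hfin, hcard, A0, hA0, hA0d⟩ :=
    hlower γ hγpos (Nat.card (Fin M ⊕ (Fin M × Fin m)) + n)
  obtain ⟨ι', hfin', e0, hcard'⟩ :=
    exists_split (Nat.card (Fin M ⊕ (Fin M × Fin m))) n ι hcard
  let e : (Fin M ⊕ (Fin M × Fin m)) ⊕ ι' ≃ ι :=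
    (Equiv.sumCongr (Finite.equivFin (Fin M ⊕ (Fin M × Fin m))) (Equiv.refl ι')).trans e0
  set A : ((Fin M ⊕ (Fin M × Fin m)) ⊕ ι' → Option α) → Prop := fun x => A0 (x ∘ e.symm) with hAdef
  have hA : LF A := by
    intro l hl
    refine hA0 (lmapI e l) ?_
    intro a
    rw [lmapI_apply]
    exact hl a
  have hAd : δ - γ ≤ dn A := by
    rw [hAdef, dn_reindex e A0]
    exact hA0d
  have hfib : ∀ z, LF (fun y : ι' → Option α => A (Sum.elim z y)) := by
    intro z
    have := LF.comp_sub hA (fixL z (idS : Subspace ι' (Option α) ι'))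
    simpa only [fixL_apply, idS_apply] using this
  have hfibup : ∀ z, dn (fun y : ι' → Option α => A (Sum.elim z y)) ≤ δ + γ :=
    fun z => hn ι' hcard' _ (hfib z)
  have hlow : ∀ z, δ - c ≤ dn (fun y : ι' → Option α => A (Sum.elim z y)) := by
    intro z
    have h1 := av_low (f := fun z => dn (fun y : ι' → Option α => A (Sum.elim z y)))
      (a := δ - γ) (b := δ + γ) hfibup (by rw [← dn_split]; exact hAd) z
    rw [← hQ] at h1
    have h2 : δ + γ - Q * (δ + γ - (δ - γ)) = δ + γ - 2 * γ * Q := by ring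
    rw [h2, hγc] at h1
    linarith
  obtain ⟨l, hl⟩ := popular_line hδ0 hM'
    (X := Fin M × Fin m → Option α) (Y := ι' → Option α)
    (fun u x y => A (Sum.elim (pre (fun i => some (x i)) u) y))
    (fun u x => le_trans (by linarith) (hlow (pre (fun i => some (x i)) u)))
  refine corr_final A hA l hΘ1pos hΘ1le hε' hgpos.le hcpos.le hlow hup (by linarith) ?_
  refine le_trans (le_trans hΘ1le0 hl) (le_of_eq ?_)
  simp only [lup_some]

end H62DHJ
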