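import Pool.Agent.H62.DHJ.AvB

/-!
# Dense insensitive sets contain subspaces (H62/DHJ/Cov1)
-/

open Combinatorics

namespace H62DHJ

/-- Extension of a word on the support of `z` by the letter `none`. -/
private noncomputable def cov1Ext {α ι : Type} (z : ι → Option α)
    (v : {i // z i ≠ none} → α) : ι → Option α := by
  classical
  exact fun i => if h : z i ≠ none then some (v ⟨i, h⟩) else none

private lemma cov1_merge {α ι : Type} (z : ι → Option α) (u : ι → α) :
    merge z u = cov1Ext z (fun i => u i.1) := by
  funext i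
  unfold merge cov1Ext
  by_cases h : z i = none
  · simp [h]
  · obtain ⟨a, ha⟩ := Option.ne_none_iff_exists'.mp h
    simp [ha]

private lemma cov1_sub {α ι : Type} (m : ℕ) (z : ι → Option α)
    (V0 : Subspace (Fin m) α {i // z i ≠ none}) (r : α) :
    ∃ V : Subspace (Fin m) (Option α) ι, ∀ x : Fin m → Option α,
      rep r (V x) = rep r (cov1Ext z (V0 (fun j => (x j).getD r))) := by
  classical
  refine ⟨⟨fun i => if h : z i ≠ none then (V0.idxFun ⟨i, h⟩).map some id else Sum.inl none,
    ?_⟩, ?_⟩
  · intro e
    obtain ⟨i, hi⟩ := V0.proper e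
    refine ⟨i.1, ?_⟩
    rw [dif_pos i.2, hi]
    rfl
  · intro x
    funext i
    by_cases h : z i ≠ none
    · cases hV : V0.idxFun ⟨i, h⟩ with
      | inl a => simp [rep, Subspace.coe_apply, cov1Ext, h, hV]
      | inr e => simp [rep, Subspace.coe_apply, cov1Ext, h, hV]
    · push Not at h
      simp [rep, Subspace.coe_apply, cov1Ext, h]

/-- A dense `r`-insensitive set over `Option α` contains an `m`-dimensional subspace, provided the
multidimensional density Hales–Jewett theorem holds over `α`. -/
theorem ins_sub {α : Type} [Finite α] [Nonempty α] (h : MDHJ α) (m : ℕ) {δ : ℝ} (hδ : 0 < δ) :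
    ∃ N : ℕ, ∀ (ι : Type) [Finite ι], N ≤ Nat.card ι → ∀ (r : α) (F : (ι → Option α) → Prop),
      Ins r F → δ ≤ dn F → ∃ V : Subspace (Fin m) (Option α) ι, ∀ x, F (V x) := by
  obtain ⟨N0, hN0⟩ := h m (δ/4) (by positivity)
  obtain ⟨N, hN⟩ := tail (α := α) N0 (show 0 < δ/4 by positivity)
  refine ⟨N, ?_⟩
  intro ι _ hι r F hF hd
  have hm : av (fun z : ι → Option α => av (fun u : ι → α => ind F (merge z u))) = dn F :=
    av_merge (ind F)
  have hz : ∃ z : ι → Option α, N0 ≤ Nat.card {i // z i ≠ none} ∧
      δ/2 ≤ av (fun u : ι → α => ind F (merge z u)) := by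
    by_contra hcon
    push Not at hcon
    have h1 : av (fun z : ι → Option α => av (fun u : ι → α => ind F (merge z u))) ≤
        av (fun z : ι → Option α => δ/2 +
          ind (fun z : ι → Option α => Nat.card {i // z i ≠ none} < N0) z) := by
      apply av_mono
      intro z
      by_cases hz : Nat.card {i // z i ≠ none} < N0
      · have h5 : ind (fun z : ι → Option α => Nat.card {i // z i ≠ none} < N0) z = 1 :=
          ind_of hz
        rw [h5]
        have : av (fun u : ι → α => ind F (merge z u)) ≤ 1 :=
          av_le zero_le_one (fun u => ind_le_one _ _)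
        linarith
      · have h5 : ind (fun z : ι → Option α => Nat.card {i // z i ≠ none} < N0) z = 0 :=
          ind_of_not hz
        rw [h5]
        have := hcon z (not_lt.mp hz)
        linarith
    rw [av_add, av_const, hm] at h1
    have h2 : av (ind (fun z : ι → Option α => Nat.card {i // z i ≠ none} < N0)) ≤ δ/4 := hN ι hι
    have h3 : av (fun z => ind (fun z : ι → Option α => Nat.card {i // z i ≠ none} < N0) z) =
      av (ind (fun z : ι → Option α => Nat.card {i // z i ≠ none} < N0)) := rfl
    linarith
  obtain ⟨z, hz1, hz2⟩ := hz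
  have h4 : av (fun u : ι → α => ind F (merge z u)) = dn (fun v => F (cov1Ext z v)) := by
    have := av_restrict (α := α) (fun i => z i ≠ none) (fun v => ind F (cov1Ext z v))
    simp only [cov1_merge]
    exact this
  obtain ⟨V0, hV0⟩ := hN0 {i // z i ≠ none} hz1 (fun v => F (cov1Ext z v)) (by linarith)
  obtain ⟨V, hV⟩ := cov1_sub m z V0 r
  refine ⟨V, fun x => ?_⟩
  rw [hF (V x), hV x, ← hF]
  exact hV0 _

end H62DHJ
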