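import Pool.Agent.H62.DHJ.Cov1

/-!
# The covering property of one insensitive set (H62/DHJ/Cov2)
-/

open Combinatorics

namespace H62DHJ

theorem Cov2_le_dn {X : Type*} [Finite X] {f : X → ℝ} {F : X → Prop} (hf : ∀ x, f x ≤ 1) :
    av (fun x => f x * ind F x) ≤ dn F := by
  unfold dn
  refine av_mono fun x => ?_
  have h1 := ind_nonneg F x
  nlinarith [hf x]

theorem Cov2_ind_and {X : Type*} (A B : X → Prop) (x : X) :
    ind (fun x => A x ∧ B x) x = ind A x * ind B x := by
  unfold ind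
  by_cases h1 : A x <;> by_cases h2 : B x <;> simp [h1, h2]

/-- The partial covering statement with error term `η1 + θ * dn F`. -/
def Cov2_S (α : Type) (m : ℕ) (η1 θ : ℝ) : Prop :=
  ∃ N : ℕ, ∀ (ι : Type) [Finite ι], N ≤ Nat.card ι → ∀ (r : α) (F : (ι → Option α) → Prop),
    Ins r F → ∀ f : (ι → Option α) → ℝ, (∀ x, f x ≤ 1) → ∀ c : ℝ, 0 ≤ c →
    (∀ V : Subspace (Fin m) (Option α) ι, (∀ x, F (V x)) → av (fun x => f (V x)) ≤ c) →
    av (fun x => f x * ind F x) ≤ c * dn F + η1 + θ * dn F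

theorem Cov2_split {α : Type} [Finite α] [Nonempty α] (m N0 : ℕ) {η1 c2 θ : ℝ} (hη : 0 < η1)
    (hN0 : ∀ (r : α) (F : (Fin N0 → Option α) → Prop), Ins r F → η1 / 2 ≤ dn F →
      ∃ V : Subspace (Fin m) (Option α) (Fin N0), ∀ x, F (V x))
    (hc2 : 0 < c2) (hc21 : c2 ≤ 1)
    (hc2' : c2 ≤ ((Nat.card (Fin m → Option α) : ℝ) / (Nat.card (Fin N0 → Option α) : ℝ)) *
      ((η1 / 2) / ((Nat.card (Subspace (Fin m) (Option α) (Fin N0)) : ℝ) + 1)))
    (hθ : 0 ≤ θ) (ι' : Type) [Finite ι'] (r : α)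
    (hS : ∀ F : (ι' → Option α) → Prop, Ins r F → ∀ f : (ι' → Option α) → ℝ, (∀ x, f x ≤ 1) →
      ∀ c : ℝ, 0 ≤ c →
      (∀ V : Subspace (Fin m) (Option α) ι', (∀ x, F (V x)) → av (fun x => f (V x)) ≤ c) →
      av (fun x => f x * ind F x) ≤ c * dn F + η1 + θ * dn F)
    (F : (Fin N0 ⊕ ι' → Option α) → Prop) (hF : Ins r F)
    (f : (Fin N0 ⊕ ι' → Option α) → ℝ) (hf : ∀ x, f x ≤ 1) (c : ℝ) (hc : 0 ≤ c)
    (hV : ∀ V : Subspace (Fin m) (Option α) (Fin N0 ⊕ ι'), (∀ x, F (V x)) →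
      av (fun x => f (V x)) ≤ c) :
    av (fun x => f x * ind F x) ≤ c * dn F + η1 + (θ * (1 - c2)) * dn F := by
  have hdF0 := dn_nonneg F
  have hdF1 := dn_le_one F
  by_cases hcase : dn F ≤ η1
  · have h1 := Cov2_le_dn (F := F) hf
    have h2 : 0 ≤ c * dn F := mul_nonneg hc hdF0
    have h3 : 0 ≤ (θ * (1 - c2)) * dn F :=
      mul_nonneg (mul_nonneg hθ (by linarith)) hdF0
    linarith
  push Not at hcase
  -- a popular subspace
  have h1 : dn F = av (fun y : ι' → Option α => dn (fun x : Fin N0 → Option α =>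
      F (Sum.elim x y))) := dn_split' F
  have h2 := markov (f := fun y : ι' → Option α => dn (fun x : Fin N0 → Option α =>
      F (Sum.elim x y))) (δ := η1) (fun y => dn_le_one _) hη.le (by rw [← h1]; exact hcase.le)
  obtain ⟨V, hVY⟩ := pigeon (K := Subspace (Fin m) (Option α) (Fin N0))
    (fun y : ι' → Option α => η1 / 2 ≤ dn (fun x : Fin N0 → Option α => F (Sum.elim x y)))
    (fun V y => ∀ u, F (Sum.elim (V u) y))
    (fun y hy => hN0 r _ (hF.fibreR y) hy) (half_pos hη) h2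
  obtain ⟨Y, hYd⟩ : ∃ Y : (ι' → Option α) → Prop, Y = fun y => ∀ u, F (Sum.elim (V u) y) :=
    ⟨_, rfl⟩
  obtain ⟨P, hPd⟩ : ∃ P : (Fin N0 → Option α) → Prop, P = fun x => ∃ u, V u = x := ⟨_, rfl⟩
  obtain ⟨q, hq⟩ : ∃ q : ℝ, q = (Nat.card (Fin m → Option α) : ℝ) /
    (Nat.card (Fin N0 → Option α) : ℝ) := ⟨_, rfl⟩
  have hq0 : 0 ≤ q := by rw [hq]; positivity
  rw [← hq] at hc2'
  have hYdn : (η1 / 2) / ((Nat.card (Subspace (Fin m) (Option α) (Fin N0)) : ℝ) + 1) ≤ dn Y := by
    rw [hYd]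
    refine le_trans ?_ hVY
    have hK : 0 < Nat.card (Subspace (Fin m) (Option α) (Fin N0)) := by
      haveI : Nonempty (Subspace (Fin m) (Option α) (Fin N0)) := ⟨V⟩
      exact Nat.card_pos
    have hK' : (0 : ℝ) < Nat.card (Subspace (Fin m) (Option α) (Fin N0)) := by exact_mod_cast hK
    exact div_le_div_of_nonneg_left (half_pos hη).le hK' (by linarith)
  have hdP : dn P = q := by
    have h := av_range V (fun _ => (1 : ℝ))
    rw [av_const, mul_one, ← hq, ← hPd] at h
    rw [← h]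
    unfold dn
    congr 1
    funext x
    rw [one_mul]
  -- the covered part
  obtain ⟨R, hRd⟩ : ∃ R : (Fin N0 ⊕ ι' → Option α) → Prop,
      R = fun z => P (z ∘ Sum.inl) ∧ Y (z ∘ Sum.inr) := ⟨_, rfl⟩
  have hRx : ∀ x y, R (Sum.elim x y) ↔ P x ∧ Y y := fun x y => by
    rw [hRd]
    show P (Sum.elim x y ∘ Sum.inl) ∧ Y (Sum.elim x y ∘ Sum.inr) ↔ _
    rw [Sum.elim_comp_inl, Sum.elim_comp_inr]
  have hRi : ∀ x y, ind R (Sum.elim x y) = ind P x * ind Y y := fun x y => by
    unfold ind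
    by_cases h1 : P x <;> by_cases h2 : Y y <;> simp [hRx, h1, h2]
  have hRF : ∀ z, R z → F z := by
    intro z hz
    rw [hRd] at hz
    obtain ⟨hz1, hz2⟩ := hz
    rw [hPd] at hz1
    obtain ⟨u, hu⟩ := hz1
    rw [hYd] at hz2
    have := hz2 u
    rw [hu, Sum.elim_comp_inl_inr] at this
    exact this
  have hdR : dn R = q * dn Y := by
    rw [dn_split' R]
    have h3 : (fun y : ι' → Option α => dn (fun x : Fin N0 → Option α => R (Sum.elim x y))) =
        fun y => q * ind Y y := by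
      funext y
      rw [← hdP, ← show av (fun x => ind P x * ind Y y) = dn P * ind Y y from
        av_mul_right (ind Y y) (ind P)]
      unfold dn
      congr 1
      funext x
      exact hRi x y
    rw [h3, av_mul_left]
    rfl
  have hdRc : c2 ≤ dn R := by
    rw [hdR]
    exact hc2'.trans (mul_le_mul_of_nonneg_left hYdn hq0)
  have hfR : av (fun z => f z * ind R z) ≤ c * dn R := by
    rw [av_split', hdR]
    have h3 : ∀ y : ι' → Option α, av (fun x : Fin N0 → Option α =>
        f (Sum.elim x y) * ind R (Sum.elim x y)) ≤ (c * q) * ind Y y := by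
      intro y
      have h4 : av (fun x : Fin N0 → Option α => f (Sum.elim x y) * ind R (Sum.elim x y)) =
          (q * av (fun u => f (Sum.elim (V u) y))) * ind Y y := by
        have h5 := av_range V (fun x => f (Sum.elim x y))
        rw [← hq, ← hPd] at h5
        rw [← h5, ← av_mul_right]
        congr 1
        funext x
        rw [hRi, mul_assoc]
      rw [h4]
      by_cases hy : Y y
      · rw [ind_of hy, mul_one, mul_one, mul_comm c q]
        refine mul_le_mul_of_nonneg_left ?_ hq0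
        have h5 := hV (fixR V y) (fun u => by
          rw [fixR_apply]
          rw [hYd] at hy
          exact hy u)
        simpa only [fixR_apply] using h5
      · rw [ind_of_not hy, mul_zero, mul_zero]
    refine (av_mono h3).trans ?_
    rw [av_mul_left]
    show c * q * dn Y ≤ c * (q * dn Y)
    rw [mul_assoc]
  -- the rest
  obtain ⟨F', hF'd⟩ : ∃ F' : (Fin N0 ⊕ ι' → Option α) → Prop, F' = fun z => F z ∧ ¬ R z :=
    ⟨_, rfl⟩
  have hsum : ∀ z, ind F z = ind R z + ind F' z := by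
    intro z
    rw [hF'd]
    unfold ind
    by_cases h1 : R z
    · simp [h1, hRF z h1]
    · by_cases h2 : F z <;> simp [h1, h2]
  have hdsum : dn F = dn R + dn F' := by
    unfold dn
    rw [← av_add]
    congr 1
    funext z
    exact hsum z
  have hins : ∀ x : Fin N0 → Option α, Ins r (fun y : ι' → Option α => F' (Sum.elim x y)) := by
    intro x y
    have e1 : F (Sum.elim x y) ↔ F (Sum.elim x (rep r y)) := hF.fibreL x y
    have e2 : Y y ↔ Y (rep r y) := by
      rw [hYd]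
      exact forall_congr' fun u => hF.fibreL (V u) y
    show F' (Sum.elim x y) ↔ F' (Sum.elim x (rep r y))
    rw [hF'd]
    show (F (Sum.elim x y) ∧ ¬ R (Sum.elim x y)) ↔
      (F (Sum.elim x (rep r y)) ∧ ¬ R (Sum.elim x (rep r y)))
    rw [hRx, hRx, e1, e2]
  have hfF' : av (fun z => f z * ind F' z) ≤ c * dn F' + η1 + θ * dn F' := by
    rw [av_split, dn_split F']
    have h3 : ∀ x : Fin N0 → Option α, av (fun y : ι' → Option α =>
        f (Sum.elim x y) * ind F' (Sum.elim x y)) ≤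
        (c + θ) * dn (fun y : ι' → Option α => F' (Sum.elim x y)) + η1 := by
      intro x
      have h4 := hS (fun y : ι' → Option α => F' (Sum.elim x y)) (hins x)
        (fun y => f (Sum.elim x y)) (fun y => hf _) c hc (fun W hW => by
          have h5 := hV (fixL x W) (fun u => by
            rw [fixL_apply]
            have := hW u
            rw [hF'd] at this
            exact this.1)
          simpa only [fixL_apply] using h5)
      have h6 : (fun y : ι' → Option α => f (Sum.elim x y) * ind F' (Sum.elim x y)) =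
          fun y => f (Sum.elim x y) * ind (fun y : ι' → Option α => F' (Sum.elim x y)) y := by
        funext y
        rfl
      rw [h6]
      linarith
    refine (av_mono h3).trans ?_
    rw [av_add, av_mul_left, av_const]
    linarith
  have hfin : av (fun z => f z * ind F z) =
      av (fun z => f z * ind R z) + av (fun z => f z * ind F' z) := by
    rw [← av_add]
    congr 1
    funext z
    rw [hsum z]
    ring
  rw [hfin]
  have h7 : dn F' ≤ (1 - c2) * dn F := by
    have : c2 * dn F ≤ c2 * 1 := mul_le_mul_of_nonneg_left hdF1 hc2.le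
    linarith
  have h8 : θ * dn F' ≤ θ * ((1 - c2) * dn F) := mul_le_mul_of_nonneg_left h7 hθ
  have h9 : c * dn F = c * dn R + c * dn F' := by rw [hdsum]; ring
  linarith

theorem Cov2_step {α : Type} [Finite α] [Nonempty α] (m N0 : ℕ) {η1 c2 θ : ℝ} (hη : 0 < η1)
    (hN0 : ∀ (r : α) (F : (Fin N0 → Option α) → Prop), Ins r F → η1 / 2 ≤ dn F →
      ∃ V : Subspace (Fin m) (Option α) (Fin N0), ∀ x, F (V x))
    (hc2 : 0 < c2) (hc21 : c2 ≤ 1)
    (hc2' : c2 ≤ ((Nat.card (Fin m → Option α) : ℝ) / (Nat.card (Fin N0 → Option α) : ℝ)) *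
      ((η1 / 2) / ((Nat.card (Subspace (Fin m) (Option α) (Fin N0)) : ℝ) + 1)))
    (hθ : 0 ≤ θ) (hS : Cov2_S α m η1 θ) : Cov2_S α m η1 (θ * (1 - c2)) := by
  obtain ⟨Nt, hNt⟩ := hS
  refine ⟨N0 + Nt, ?_⟩
  intro ι _ hι r F hF f hf c hc hV
  obtain ⟨ι', _, e, hι'⟩ := exists_split N0 Nt ι hι
  have hins : Ins r (fun x : Fin N0 ⊕ ι' → Option α => F (x ∘ e.symm)) := by
    intro x
    exact hF (x ∘ e.symm)
  have h := Cov2_split m N0 hη hN0 hc2 hc21 hc2' hθ ι' r (fun F => hNt ι' hι' r F)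
    (fun x : Fin N0 ⊕ ι' → Option α => F (x ∘ e.symm)) hins
    (fun x => f (x ∘ e.symm)) (fun x => hf _) c hc (fun V hVx => by
      have h5 := hV (mapI e V) (fun u => by
        rw [mapI_apply]
        exact hVx u)
      simpa only [mapI_apply] using h5)
  rw [dn_reindex e F] at h
  have h6 : av (fun x : Fin N0 ⊕ ι' → Option α => f (x ∘ e.symm) *
      ind (fun x : Fin N0 ⊕ ι' → Option α => F (x ∘ e.symm)) x) =
      av (fun x => f x * ind F x) :=
    av_reindex e (fun x => f x * ind F x)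
  rw [h6] at h
  exact h

/-- An insensitive set has the covering property, in high dimension. -/
theorem cov_one {α : Type} [Finite α] [Nonempty α] (h : MDHJ α) (m : ℕ) {η : ℝ} (hη : 0 < η) :
    ∃ N : ℕ, ∀ (ι : Type) [Finite ι], N ≤ Nat.card ι → ∀ (r : α) (F : (ι → Option α) → Prop),
      Ins r F → Cov m η F := by
  obtain ⟨η1, hη1d⟩ : ∃ η1 : ℝ, η1 = η / 2 := ⟨_, rfl⟩
  have hη1 : 0 < η1 := by rw [hη1d]; exact half_pos hη
  obtain ⟨N0, hN0⟩ := ins_sub h m (half_pos hη1)
  have hN0' : ∀ (r : α) (F : (Fin N0 → Option α) → Prop), Ins r F → η1 / 2 ≤ dn F →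
      ∃ V : Subspace (Fin m) (Option α) (Fin N0), ∀ x, F (V x) := fun r F hF hd =>
    hN0 (Fin N0) (by rw [Nat.card_fin]) r F hF hd
  obtain ⟨c3, hc3⟩ : ∃ c3 : ℝ, c3 =
      ((Nat.card (Fin m → Option α) : ℝ) / (Nat.card (Fin N0 → Option α) : ℝ)) *
      ((η1 / 2) / ((Nat.card (Subspace (Fin m) (Option α) (Fin N0)) : ℝ) + 1)) := ⟨_, rfl⟩
  have hc30 : 0 < c3 := by
    rw [hc3]
    have h1 : (0 : ℝ) < Nat.card (Fin m → Option α) := by exact_mod_cast Nat.card_pos
    have h2 : (0 : ℝ) < Nat.card (Fin N0 → Option α) := by exact_mod_cast Nat.card_pos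
    positivity
  have hmin : 0 < min c3 (1 / 2) := lt_min hc30 (by norm_num)
  have hmin1 : min c3 (1 / 2) ≤ 1 := (min_le_right _ _).trans (by norm_num)
  have hmin2 := (min_le_left c3 (1 / 2 : ℝ)).trans hc3.le
  have hmin3 : min c3 (1 / 2) ≤ 1 / 2 := min_le_right _ _
  have hall : ∀ t : ℕ, Cov2_S α m η1 ((1 - min c3 (1 / 2)) ^ t) := by
    intro t
    induction t with
    | zero =>
      refine ⟨0, ?_⟩
      intro ι _ _ r F _ f hf c hc _
      have h1 := Cov2_le_dn (F := F) hf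
      have h2 : 0 ≤ c * dn F := mul_nonneg hc (dn_nonneg F)
      rw [pow_zero, one_mul]
      linarith
    | succ t ih =>
      rw [pow_succ]
      exact Cov2_step m N0 hη1 hN0' hmin hmin1 hmin2 (pow_nonneg (by linarith) t) ih
  obtain ⟨t, ht⟩ := exists_pow_lt_of_lt_one hη1 (show 1 - min c3 (1 / 2) < 1 by linarith)
  obtain ⟨N, hN⟩ := hall t
  refine ⟨N, ?_⟩
  intro ι _ hι r F hF f hf c hc hV
  have h1 := hN ι hι r F hF f hf c hc hV
  have h2 : (1 - min c3 (1 / 2)) ^ t * dn F ≤ η1 * 1 :=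
    mul_le_mul ht.le (dn_le_one F) (dn_nonneg F) hη1.le
  have h3 : η1 + η1 = η := by rw [hη1d]; ring
  linarith

end H62DHJ
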