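import Pool.Agent.H62.DHJ.Cov2

/-!
# The covering property of intersections of insensitive sets (H62/DHJ/CovR)
-/

open Combinatorics

namespace H62DHJ

/-- Averages over all subspaces of a fixed dimension bound the full average. -/
theorem av_of_sub {β : Type} [Finite β] [Nonempty β] (m : ℕ) (ι : Type) [Finite ι]
    (hι : m ≤ Nat.card ι) (f : (ι → β) → ℝ) {c : ℝ} (hc : 0 ≤ c)
    (h : ∀ V : Subspace (Fin m) β ι, av (fun x => f (V x)) ≤ c) : av f ≤ c := by
  obtain ⟨ι', hfin, e, -⟩ := exists_split m 0 ι (by omega)
  rw [← av_reindex e f, av_split']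
  refine av_le hc fun y => ?_
  have h1 := h (mapI e (fixR idS y))
  simpa using h1

/-- An intersection of insensitive sets has the covering property, in high dimension. -/
theorem cov_inter {α : Type} [Finite α] [Nonempty α] (h : MDHJ α) (S : Finset α) (m : ℕ) {η : ℝ}
    (hη : 0 < η) :
    ∃ N : ℕ, ∀ (ι : Type) [Finite ι], N ≤ Nat.card ι →
      ∀ F : α → ((ι → Option α) → Prop), (∀ s ∈ S, Ins s (F s)) →
      Cov m η (fun z => ∀ s ∈ S, F s z) := by
  classical
  induction S using Finset.induction_on generalizing m η with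
  | empty =>
    refine ⟨m, fun ι _ hι F _ f hf c hc hV => ?_⟩
    have hE : ∀ z : ι → Option α, ∀ s ∈ (∅ : Finset α), F s z := fun z s hs =>
      absurd hs (Finset.notMem_empty s)
    have h1 : (fun x => f x * ind (fun z => ∀ s ∈ (∅ : Finset α), F s z) x) = f := by
      funext x
      rw [ind_of (hE x), mul_one]
    have h2 : av f ≤ c := av_of_sub m ι hι f hc fun V => hV V fun x => hE (V x)
    have h3 : dn (fun z : ι → Option α => ∀ s ∈ (∅ : Finset α), F s z) = 1 := by
      have h4 : (fun z : ι → Option α => ∀ s ∈ (∅ : Finset α), F s z) = fun _ => True := by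
        funext z
        exact eq_true (hE z)
      rw [h4, dn_true]
    rw [h1, h3]
    linarith
  | insert s S hs ih =>
    obtain ⟨N₁, hN₁⟩ := cov_one h m (half_pos hη)
    obtain ⟨N, hN⟩ := ih N₁ (half_pos hη)
    refine ⟨N, fun ι _ hι F hF f hf c hc hV => ?_⟩
    have hFs : Ins s (F s) := hF s (Finset.mem_insert_self s S)
    have hE' := hN ι hι F fun t ht => hF t (Finset.mem_insert_of_mem ht)
    set E' : (ι → Option α) → Prop := fun z => ∀ t ∈ S, F t z with hE'def
    set E : (ι → Option α) → Prop := fun z => ∀ t ∈ insert s S, F t z with hEdef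
    have hEiff : ∀ z, E z ↔ F s z ∧ E' z := fun z => Finset.forall_mem_insert _ _ _
    have hind : ∀ z, ind E z = ind (F s) z * ind E' z := by
      intro z
      by_cases h1 : F s z
      · by_cases h2 : E' z
        · rw [ind_of ((hEiff z).2 ⟨h1, h2⟩), ind_of h1, ind_of h2, mul_one]
        · rw [ind_of_not (fun h3 => h2 ((hEiff z).1 h3).2), ind_of_not h2, mul_zero]
      · rw [ind_of_not (fun h3 => h1 ((hEiff z).1 h3).1), ind_of_not h1, zero_mul]
    -- the auxiliary function
    set g : (ι → Option α) → ℝ := fun x => (f x - c) * ind (F s) x with hg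
    have hg1 : ∀ x, g x ≤ 1 := by
      intro x
      have h1 := hf x
      by_cases h2 : F s x
      · show (f x - c) * ind (F s) x ≤ 1
        rw [ind_of h2]
        linarith
      · show (f x - c) * ind (F s) x ≤ 1
        rw [ind_of_not h2]
        linarith
    have hgW : ∀ W : Subspace (Fin N₁) (Option α) ι, (∀ x, E' (W x)) →
        av (fun x => g (W x)) ≤ η / 2 := by
      intro W hW
      have h1 := hN₁ (Fin N₁) (by rw [Nat.card_fin]) s (fun x => F s (W x)) (hFs.comp_sub W)
        (fun x => f (W x)) (fun x => hf _) c hc fun V hVW => by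
          have h2 := hV (comp W V) fun x => by
            rw [comp_apply]
            exact (hEiff _).2 ⟨hVW x, hW _⟩
          simpa using h2
      have h3 : av (fun x => g (W x)) = av (fun x => f (W x) * ind (fun x => F s (W x)) x) -
          c * dn (fun x => F s (W x)) := by
        unfold dn
        rw [← av_mul_left, ← av_sub]
        congr 1
        funext x
        show (f (W x) - c) * ind (F s) (W x) = f (W x) * ind (F s) (W x) - c * ind (F s) (W x)
        ring
      rw [h3]
      linarith
    have h4 := hE' g hg1 (η / 2) (half_pos hη).le hgW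
    have h5 : av (fun x => g x * ind E' x) = av (fun x => f x * ind E x) - c * dn E := by
      unfold dn
      rw [← av_mul_left, ← av_sub]
      congr 1
      funext x
      rw [hind x]
      show (f x - c) * ind (F s) x * ind E' x = _
      ring
    have h6 : dn E' ≤ 1 := dn_le_one E'
    rw [h5] at h4
    have h7 : η / 2 * dn E' ≤ η / 2 * 1 := mul_le_mul_of_nonneg_left h6 (half_pos hη).le
    linarith

/-- The complement of an intersection of insensitive sets has the covering property, in high
dimension. -/
theorem cov_compl {α : Type} [Finite α] [Nonempty α] (h : MDHJ α) (m : ℕ) {η : ℝ}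
    (hη : 0 < η) :
    ∃ N : ℕ, ∀ (ι : Type) [Finite ι], N ≤ Nat.card ι →
      ∀ D : α → ((ι → Option α) → Prop), (∀ s, Ins s (D s)) →
      Cov m η (fun z => ¬ ∀ s, D s z) := by
  classical
  have hft : Fintype α := Fintype.ofFinite α
  obtain ⟨n, ⟨e⟩⟩ := Finite.exists_equiv_fin α
  have hcard : (0 : ℝ) < Fintype.card α := by exact_mod_cast Fintype.card_pos
  set S : α → Finset α := fun r => Finset.univ.filter fun s => e s ≤ e r with hS
  choose N hN using fun r : α => cov_inter h (S r) m (div_pos hη hcard)
  refine ⟨∑ r, N r, fun ι _ hι D hD f hf c hc hV => ?_⟩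
  set F : α → α → (ι → Option α) → Prop := fun r s => if s = r then fun z => ¬ D r z else D s
    with hF
  set E : α → (ι → Option α) → Prop := fun r z => ∀ s ∈ S r, F r s z with hE
  have hEiff : ∀ r z, E r z ↔ ¬ D r z ∧ ∀ s, e s < e r → D s z := by
    intro r z
    constructor
    · intro hr
      refine ⟨?_, fun s hs => ?_⟩
      · have h1 := hr r (by rw [hS]; simp)
        rw [hF] at h1
        simpa using h1
      · have h1 := hr s (by rw [hS]; simpa using hs.le)
        have h2 : s ≠ r := by
          rintro rfl
          exact lt_irrefl _ hs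
        rw [hF] at h1
        simpa [h2] using h1
    · rintro ⟨h1, h2⟩ s hs
      have h3 : e s ≤ e r := by
        rw [hS] at hs
        simpa using hs
      show (if s = r then fun z => ¬ D r z else D s) z
      by_cases h4 : s = r
      · rw [if_pos h4]
        exact h1
      · rw [if_neg h4]
        exact h2 s (lt_of_le_of_ne h3 fun h5 => h4 (e.injective h5))
  have hcov : ∀ r, Cov m (η / Fintype.card α) (E r) := by
    intro r
    have h1 : N r ≤ Nat.card ι :=
      (Finset.single_le_sum (fun i _ => Nat.zero_le (N i)) (Finset.mem_univ r)).trans hι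
    refine hN r ι h1 (F r) fun s _ => ?_
    show Ins s (if s = r then fun z => ¬ D r z else D s)
    by_cases h2 : s = r
    · subst h2
      rw [if_pos rfl]
      exact (hD s).not
    · rw [if_neg h2]
      exact hD s
  have hind : ∀ z, ind (fun z => ¬ ∀ s, D s z) z = ∑ r, ind (E r) z := by
    intro z
    by_cases h1 : ∀ s, D s z
    · rw [ind_of_not (A := fun z => ¬ ∀ s, D s z) (x := z) (fun h2 => h2 h1)]
      refine (Finset.sum_eq_zero fun r _ => ind_of_not fun h2 => ?_).symm
      exact ((hEiff r z).1 h2).1 (h1 r)
    · rw [ind_of (A := fun z => ¬ ∀ s, D s z) (x := z) h1]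
      push Not at h1
      obtain ⟨s₀, hs₀⟩ := h1
      obtain ⟨r, hr, hmin⟩ := Finset.exists_min_image (Finset.univ.filter fun s => ¬ D s z) e
        ⟨s₀, by simpa using hs₀⟩
      have hr' : ¬ D r z := by simpa using hr
      have hEr : E r z := (hEiff r z).2 ⟨hr', fun s hs => by
        by_contra h2
        exact absurd (hmin s (by simpa using h2)) (not_le.2 hs)⟩
      rw [Finset.sum_eq_single r, ind_of hEr]
      · intro s _ hsr
        refine ind_of_not fun h2 => ?_
        have h3 := (hEiff s z).1 h2
        have h4 : e r ≤ e s := hmin s (by simpa using h3.1)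
        exact hr' (h3.2 r (lt_of_le_of_ne h4 fun h5 => hsr (e.injective h5).symm))
      · intro h2
        exact absurd (Finset.mem_univ r) h2
  have hE' : ∀ r z, E r z → ¬ ∀ s, D s z := fun r z h1 h2 => ((hEiff r z).1 h1).1 (h2 r)
  have h1 : ∀ r, av (fun x => f x * ind (E r) x) ≤ c * dn (E r) + η / Fintype.card α := fun r =>
    hcov r f hf c hc fun V hVr => hV V fun x => hE' r _ (hVr x)
  have h2 : av (fun x => f x * ind (fun z => ¬ ∀ s, D s z) x) =
      ∑ r, av (fun x => f x * ind (E r) x) := by
    rw [← av_sum]
    congr 1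
    funext x
    rw [hind x, Finset.mul_sum]
  have h3 : dn (fun z => ¬ ∀ s, D s z) = ∑ r, dn (E r) := by
    unfold dn
    rw [← av_sum]
    congr 1
    funext x
    exact hind x
  rw [h2, h3, Finset.mul_sum]
  calc ∑ r, av (fun x => f x * ind (E r) x)
      ≤ ∑ r, (c * dn (E r) + η / Fintype.card α) := Finset.sum_le_sum fun r _ => h1 r
    _ = ∑ r, c * dn (E r) + η := by
      rw [Finset.sum_add_distrib, Finset.sum_const, Finset.card_univ, nsmul_eq_mul,
        mul_div_cancel₀ _ hcard.ne']

end H62DHJ
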