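import Mathlib

/-!
# Density Hales–Jewett: definitions (H62/DHJ)

All alphabets and index types live in `Type`; averages are taken with `finsum` and `Nat.card`, so
no decidability instances appear in the definitions.
-/

open Combinatorics

namespace H62DHJ

/-- Average of a real function over a (finite) type. -/
noncomputable def av {X : Type*} (f : X → ℝ) : ℝ := (∑ᶠ x, f x) / (Nat.card X : ℝ)

open Classical in
/-- Indicator of a predicate. -/
noncomputable def ind {X : Type*} (A : X → Prop) (x : X) : ℝ := if A x then 1 else 0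

/-- Density of a predicate. -/
noncomputable def dn {X : Type*} (A : X → Prop) : ℝ := av (ind A)

/-- `A` contains no combinatorial line. -/
def LF {α ι : Type} (A : (ι → α) → Prop) : Prop := ∀ l : Line α ι, ¬ ∀ a, A (l a)

/-- The density Hales–Jewett property of an alphabet. -/
def DHJ (α : Type) : Prop :=
  ∀ δ : ℝ, 0 < δ → ∃ N : ℕ, ∀ (ι : Type) [Finite ι], N ≤ Nat.card ι →
    ∀ A : (ι → α) → Prop, δ ≤ dn A → ∃ l : Line α ι, ∀ a, A (l a)

/-- The multidimensional density Hales–Jewett property of an alphabet. -/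
def MDHJ (α : Type) : Prop :=
  ∀ (m : ℕ) (δ : ℝ), 0 < δ → ∃ N : ℕ, ∀ (ι : Type) [Finite ι], N ≤ Nat.card ι →
    ∀ A : (ι → α) → Prop, δ ≤ dn A → ∃ V : Subspace (Fin m) α ι, ∀ x, A (V x)

/-- Replace the letter `none` by `some r`. -/
def rep {α : Type} (r : α) {ι : Type} (x : ι → Option α) : ι → Option α := fun i => some ((x i).getD r)

/-- `F` is `r`-insensitive: it does not distinguish the letters `none` and `some r`. -/
def Ins {α ι : Type} (r : α) (F : (ι → Option α) → Prop) : Prop := ∀ x, F x ↔ F (rep r x)

/-- The covering property used as a substitute for partitions of `E` into `m`-dimensional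
subspaces: a function `f ≤ 1` whose average over every `m`-dimensional subspace inside `E` is at
most `c` has `av (f · 1_E) ≤ c · dn E + η`. -/
def Cov {β ι : Type} (m : ℕ) (η : ℝ) (E : (ι → β) → Prop) : Prop :=
  ∀ f : (ι → β) → ℝ, (∀ x, f x ≤ 1) → ∀ c : ℝ, 0 ≤ c →
    (∀ V : Subspace (Fin m) β ι, (∀ x, E (V x)) → av (fun x => f (V x)) ≤ c) →
    av (fun x => f x * ind E x) ≤ c * dn E + η

/-- `δ` is the critical density of line-free sets over the alphabet `β`. -/
def IsCrit (β : Type) (δ : ℝ) : Prop :=
  0 < δ ∧
  (∀ γ : ℝ, 0 < γ → ∃ n : ℕ, ∀ (ι : Type) [Finite ι], n ≤ Nat.card ι →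
    ∀ A : (ι → β) → Prop, LF A → dn A ≤ δ + γ) ∧
  (∀ γ : ℝ, 0 < γ → ∀ n : ℕ, ∃ (ι : Type) (_ : Finite ι), n ≤ Nat.card ι ∧
    ∃ A : (ι → β) → Prop, LF A ∧ δ - γ ≤ dn A)

/-! ### Operations on subspaces -/

/-- Composition of subspaces: `comp V W x = V (W x)`. -/
def comp {θ η β ι : Type} (V : Subspace η β ι) (W : Subspace θ β η) : Subspace θ β ι where
  idxFun i := (V.idxFun i).elim Sum.inl W.idxFun
  proper e := by
    obtain ⟨j, hj⟩ := W.proper e
    obtain ⟨i, hi⟩ := V.proper j
    exact ⟨i, by simp [hi, hj]⟩

@[simp] lemma comp_apply {θ η β ι : Type} (V : Subspace η β ι) (W : Subspace θ β η)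
    (x : θ → β) : comp V W x = V (W x) := by
  funext i
  cases h : V.idxFun i <;> simp [comp, Subspace.coe_apply, h]

/-- Composition of a subspace and a line. -/
def lcomp {η β ι : Type} (V : Subspace η β ι) (l : Line β η) : Line β ι where
  idxFun i := (V.idxFun i).elim some l.idxFun
  proper := by
    obtain ⟨j, hj⟩ := l.proper
    obtain ⟨i, hi⟩ := V.proper j
    exact ⟨i, by simp [hi, hj]⟩

@[simp] lemma lcomp_apply {η β ι : Type} (V : Subspace η β ι) (l : Line β η) (a : β) :
    lcomp V l a = V (l a) := by
  funext i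
  cases h : V.idxFun i <;> simp [lcomp, Subspace.coe_apply, h]

/-- A subspace of `ι → β`, with a fixed point on the second summand. -/
def fixR {η β ι ι' : Type} (V : Subspace η β ι) (y : ι' → β) : Subspace η β (ι ⊕ ι') where
  idxFun := Sum.elim V.idxFun (fun j => Sum.inl (y j))
  proper e := by
    obtain ⟨i, hi⟩ := V.proper e
    exact ⟨Sum.inl i, by simp [hi]⟩

@[simp] lemma fixR_apply {η β ι ι' : Type} (V : Subspace η β ι) (y : ι' → β) (x : η → β) :
    fixR V y x = Sum.elim (V x) y := by
  funext i
  cases i <;> simp [fixR, Subspace.coe_apply]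

/-- A fixed point on the first summand and a subspace of the second. -/
def fixL {η β ι ι' : Type} (x : ι → β) (V : Subspace η β ι') : Subspace η β (ι ⊕ ι') where
  idxFun := Sum.elim (fun j => Sum.inl (x j)) V.idxFun
  proper e := by
    obtain ⟨i, hi⟩ := V.proper e
    exact ⟨Sum.inr i, by simp [hi]⟩

@[simp] lemma fixL_apply {η β ι ι' : Type} (x : ι → β) (V : Subspace η β ι') (u : η → β) :
    fixL x V u = Sum.elim x (V u) := by
  funext i
  cases i <;> simp [fixL, Subspace.coe_apply]

/-- Product of two subspaces. -/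
def prodS {η η' β ι ι' : Type} (V : Subspace η β ι) (W : Subspace η' β ι') :
    Subspace (η ⊕ η') β (ι ⊕ ι') where
  idxFun := Sum.elim (fun i => (V.idxFun i).map id Sum.inl) (fun j => (W.idxFun j).map id Sum.inr)
  proper e := by
    rcases e with e | e
    · obtain ⟨i, hi⟩ := V.proper e
      exact ⟨Sum.inl i, by simp [hi]⟩
    · obtain ⟨i, hi⟩ := W.proper e
      exact ⟨Sum.inr i, by simp [hi]⟩

@[simp] lemma prodS_apply {η η' β ι ι' : Type} (V : Subspace η β ι) (W : Subspace η' β ι')
    (x : η ⊕ η' → β) :
    prodS V W x = Sum.elim (V (x ∘ Sum.inl)) (W (x ∘ Sum.inr)) := by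
  funext i
  rcases i with i | i
  · cases h : V.idxFun i <;> simp [prodS, Subspace.coe_apply, h]
  · cases h : W.idxFun i <;> simp [prodS, Subspace.coe_apply, h]

/-- The identity subspace. -/
def idS {β ι : Type} : Subspace ι β ι := ⟨Sum.inr, fun i => ⟨i, rfl⟩⟩

@[simp] lemma idS_apply {β ι : Type} (x : ι → β) : (idS : Subspace ι β ι) x = x := by
  funext i; simp [idS, Subspace.coe_apply]

/-- Reindexing of the coordinates of a subspace along an equivalence. -/
def mapI {η β ι κ : Type} (e : ι ≃ κ) (V : Subspace η β ι) : Subspace η β κ where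
  idxFun i := V.idxFun (e.symm i)
  proper j := by
    obtain ⟨i, hi⟩ := V.proper j
    exact ⟨e i, by simp [hi]⟩

@[simp] lemma mapI_apply {η β ι κ : Type} (e : ι ≃ κ) (V : Subspace η β ι) (x : η → β) :
    mapI e V x = V x ∘ e.symm := by
  funext i; simp [mapI, Subspace.coe_apply]

/-- Reindexing of the coordinates of a line along an equivalence. -/
def lmapI {β ι κ : Type} (e : ι ≃ κ) (l : Line β ι) : Line β κ where
  idxFun i := l.idxFun (e.symm i)
  proper := by
    obtain ⟨i, hi⟩ := l.proper
    exact ⟨e i, by simp [hi]⟩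

@[simp] lemma lmapI_apply {β ι κ : Type} (e : ι ≃ κ) (l : Line β ι) (a : β) :
    lmapI e l a = l a ∘ e.symm := by
  funext i; simp [lmapI]

/-- The one-dimensional subspace of a line. -/
def ofLine {β ι : Type} (l : Line β ι) : Subspace (Fin 1) β ι where
  idxFun i := (l.idxFun i).elim (Sum.inr 0) Sum.inl
  proper e := by
    obtain ⟨i, hi⟩ := l.proper
    exact ⟨i, by simp [hi, Subsingleton.elim e 0]⟩

@[simp] lemma ofLine_apply {β ι : Type} (l : Line β ι) (x : Fin 1 → β) :
    ofLine l x = l (x 0) := by
  funext i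
  cases h : l.idxFun i <;> simp [ofLine, Subspace.coe_apply, h]

instance {η β ι : Type} [Finite η] [Finite β] [Finite ι] : Finite (Subspace η β ι) :=
  Finite.of_injective (fun V => V.idxFun) (by
    intro V W h
    exact Subspace.ext h)

instance {β ι : Type} [Finite β] [Finite ι] : Finite (Line β ι) :=
  Finite.of_injective (fun V => V.idxFun) (by
    intro V W h
    exact Line.ext h)

/-- Subspaces are injective maps. -/
lemma sub_inj {η β ι : Type} (V : Subspace η β ι) : Function.Injective (fun x : η → β => V x) := by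
  intro x y h
  funext e
  obtain ⟨i, hi⟩ := V.proper e
  have := congrFun h i
  simpa [Subspace.coe_apply, hi] using this

lemma Ins.not {α ι : Type} {r : α} {F : (ι → Option α) → Prop} (h : Ins r F) :
    Ins r (fun x => ¬ F x) := fun x => not_congr (h x)

/-- Insensitivity is inherited by pulling back along subspaces. -/
lemma Ins.comp_sub {α ι η : Type} {r : α} {F : (ι → Option α) → Prop} (h : Ins r F)
    (V : Subspace η (Option α) ι) : Ins r (fun x => F (V x)) := by
  intro x
  have key : rep r (V x) = rep r (V (rep r x)) := by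
    funext i
    cases hi : V.idxFun i with
    | inl a => simp [rep, Subspace.coe_apply, hi]
    | inr e => simp [rep, Subspace.coe_apply, hi]
  show F (V x) ↔ F (V (rep r x))
  rw [h (V x), h (V (rep r x)), key]

/-- Insensitivity is inherited by the fibres over prefixes. -/
lemma Ins.fibreL {α ι ι' : Type} {r : α} {F : (ι ⊕ ι' → Option α) → Prop} (h : Ins r F)
    (x : ι → Option α) : Ins r (fun y : ι' → Option α => F (Sum.elim x y)) := by
  intro y
  have key : rep r (Sum.elim x y) = rep r (Sum.elim x (rep r y)) := by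
    funext i
    cases i <;> simp [rep]
  show F (Sum.elim x y) ↔ F (Sum.elim x (rep r y))
  rw [h (Sum.elim x y), h (Sum.elim x (rep r y)), key]

/-- Insensitivity is inherited by the fibres over suffixes. -/
lemma Ins.fibreR {α ι ι' : Type} {r : α} {F : (ι ⊕ ι' → Option α) → Prop} (h : Ins r F)
    (y : ι' → Option α) : Ins r (fun x : ι → Option α => F (Sum.elim x y)) := by
  intro x
  have key : rep r (Sum.elim x y) = rep r (Sum.elim (rep r x) y) := by
    funext i
    cases i <;> simp [rep]
  show F (Sum.elim x y) ↔ F (Sum.elim (rep r x) y)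
  rw [h (Sum.elim x y), h (Sum.elim (rep r x) y), key]

lemma LF.comp_sub {β ι η : Type} {A : (ι → β) → Prop} (h : LF A) (V : Subspace η β ι) :
    LF (fun x => A (V x)) := by
  intro l hl
  exact h (lcomp V l) (fun a => by simpa using hl a)

/-! ### Words used in the correlation step -/

/-- The prefix word with first part `x` and second part `u`, where the letter `none` in row `i` of
`u` is replaced by `x i`. -/
def pre {α : Type} {M m : ℕ} (x : Fin M → Option α) (u : Fin M × Fin m → Option α) :
    Fin M ⊕ (Fin M × Fin m) → Option α :=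
  Sum.elim x (fun p => (u p).elim (x p.1) some)

/-- Replace row `i0` of `u` by `u0`. -/
def row {β : Type} {M m : ℕ} (i0 : Fin M) (u0 : Fin m → β) (u : Fin M × Fin m → β) :
    Fin M × Fin m → β := fun p => if p.1 = i0 then u0 p.2 else u p

/-- The image of a line over `α` as a line over `Option α`. -/
def lup {α : Type} {M : ℕ} (l : Line α (Fin M)) : Line (Option α) (Fin M) := l.map some

end H62DHJ
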