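import Pool.Agent.H62.DHJ.Av

/-!
# The multidimensional density Hales–Jewett property (H62/DHJ/MD)
-/

open Combinatorics

namespace H62DHJ

/-- `DHJ` is invariant under equivalences of the alphabet. -/
theorem DHJ.congr {α α' : Type} (e : α ≃ α') (h : DHJ α) : DHJ α' := by
  intro δ hδ
  obtain ⟨N, hN⟩ := h δ hδ
  refine ⟨N, ?_⟩
  intro ι _ hι A hA
  have h1 : dn (fun x : ι → α => A (Equiv.arrowCongr (Equiv.refl ι) e x)) = dn A :=
    dn_equiv (Equiv.arrowCongr (Equiv.refl ι) e) A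
  obtain ⟨l, hl⟩ := hN ι hι (fun x : ι → α => A (Equiv.arrowCongr (Equiv.refl ι) e x))
    (h1.symm ▸ hA)
  refine ⟨l.map e, fun a => ?_⟩
  have h2 : (l.map e) a = Equiv.arrowCongr (Equiv.refl ι) e (l (e.symm a)) := by
    have h3 := Line.map_apply (e : α → α') l (e.symm a)
    rw [Equiv.apply_symm_apply] at h3
    rw [h3]
    rfl
  rw [h2]
  exact hl (e.symm a)

/-- The density Hales–Jewett property implies its multidimensional version. -/
theorem MDHJ_of_DHJ {α : Type} [Finite α] [Nonempty α] (h : DHJ α) : MDHJ α := by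
  intro m
  induction m with
  | zero =>
    intro δ hδ
    refine ⟨0, ?_⟩
    intro ι _ _ A hA
    obtain ⟨x, hx⟩ := dn_pos_exists (hδ.trans_le hA)
    refine ⟨⟨fun i => Sum.inl (x i), fun e => e.elim0⟩, fun y => ?_⟩
    have : (⟨fun i => Sum.inl (x i), fun e => e.elim0⟩ : Subspace (Fin 0) α ι) y = x := by
      funext i
      simp [Subspace.coe_apply]
    rw [this]
    exact hx
  | succ m ih =>
    intro δ hδ
    obtain ⟨N1, hN1⟩ := h (δ / 2) (half_pos hδ)
    have hL : (0 : ℝ) < (Nat.card (Line α (Fin N1)) : ℝ) + 1 := by positivity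
    obtain ⟨N2, hN2⟩ := ih (δ / 2 / ((Nat.card (Line α (Fin N1)) : ℝ) + 1)) (by positivity)
    refine ⟨N1 + N2, ?_⟩
    intro ι _ hι A hA
    obtain ⟨ι', hfin, e, hι'⟩ := exists_split N1 N2 ι hι
    have := hfin
    have h1 : δ ≤ av (fun y : ι' → α => dn (fun x : Fin N1 → α => A (Sum.elim x y ∘ e.symm))) := by
      rw [← dn_split' (fun x : Fin N1 ⊕ ι' → α => A (x ∘ e.symm)), dn_reindex e A]
      exact hA
    have h2 := markov (fun y => dn_le_one _) hδ.le h1
    obtain ⟨l, hl⟩ := pigeon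
      (fun y : ι' → α => δ / 2 ≤ dn (fun x : Fin N1 → α => A (Sum.elim x y ∘ e.symm)))
      (fun (l : Line α (Fin N1)) (y : ι' → α) => ∀ a, A (Sum.elim (l a) y ∘ e.symm))
      (fun y hy => hN1 (Fin N1) (by simp) (fun x => A (Sum.elim x y ∘ e.symm)) hy)
      (half_pos hδ) h2
    have hcard : (0 : ℝ) < (Nat.card (Line α (Fin N1)) : ℝ) := by
      have : Nonempty (Line α (Fin N1)) := ⟨l⟩
      exact_mod_cast Nat.card_pos
    obtain ⟨W, hW⟩ := hN2 ι' hι' (fun y => ∀ a, A (Sum.elim (l a) y ∘ e.symm)) (le_trans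
      (div_le_div_of_nonneg_left (half_pos hδ).le hcard (by linarith)) hl)
    let en : Fin 1 ⊕ Fin m ≃ Fin (m + 1) := finSumFinEquiv.trans (finCongr (add_comm 1 m))
    refine ⟨(prodS (ofLine l) W).reindex en (Equiv.refl α) e, fun x => ?_⟩
    have h3 : ((prodS (ofLine l) W).reindex en (Equiv.refl α) e) x =
        Sum.elim (l ((x ∘ en ∘ Sum.inl) 0)) (W (x ∘ en ∘ Sum.inr)) ∘ e.symm := by
      funext i
      rw [Subspace.reindex_apply]
      have h4 : ((Equiv.refl α).symm ∘ x ∘ en : Fin 1 ⊕ Fin m → α) = x ∘ en := rfl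
      rw [h4, prodS_apply, ofLine_apply]
      rfl
    rw [h3]
    exact hW _ _

end H62DHJ
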