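import Pool.Agent.H62.DHJ.Corr
import Pool.Agent.H62.DHJ.CovR
import Pool.Agent.H62.DHJ.MD

/-!
# The density Hales–Jewett theorem (H62/DHJ/Main)
-/

open Combinatorics

namespace H62DHJ

/-- If the density Hales–Jewett property fails then there is a critical density. -/
theorem crit_of_not {β : Type} [Finite β] [Nonempty β] (h : ¬ DHJ β) : ∃ δ, IsCrit β δ := by
  unfold DHJ at h
  push Not at h
  obtain ⟨δ0, hδ0, h0⟩ := h
  obtain ⟨S, hS⟩ : ∃ S : Set ℝ, S = {δ | ∀ n : ℕ, ∃ (ι : Type) (_ : Finite ι), n ≤ Nat.card ι ∧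
      ∃ A : (ι → β) → Prop, LF A ∧ δ ≤ dn A} := ⟨_, rfl⟩
  have hmem : δ0 ∈ S := by
    rw [hS]
    intro n
    obtain ⟨ι, hfin, hι, A, hA, hl⟩ := h0 n
    refine ⟨ι, hfin, hι, A, fun l hla => ?_, hA⟩
    obtain ⟨a, ha⟩ := hl l
    exact ha (hla a)
  have hbdd : BddAbove S := by
    refine ⟨1, fun δ hδ => ?_⟩
    rw [hS] at hδ
    obtain ⟨ι, hfin, -, A, -, hA⟩ := hδ 0
    exact hA.trans (dn_le_one A)
  refine ⟨sSup S, hδ0.trans_le (le_csSup hbdd hmem), ?_, ?_⟩
  · intro γ hγ
    have hn : sSup S + γ ∉ S := fun hm => by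
      have := le_csSup hbdd hm
      linarith
    rw [hS] at hn
    simp only [Set.mem_ofPred_eq, not_forall] at hn
    obtain ⟨n, hn⟩ := hn
    rw [← hS] at hn
    refine ⟨n, ?_⟩
    intro ι _ hι A hA
    by_contra hlt
    exact hn ⟨ι, inferInstance, hι, A, hA, (not_le.1 hlt).le⟩
  · intro γ hγ n
    obtain ⟨s, hs, hlt⟩ := exists_lt_of_lt_csSup ⟨δ0, hmem⟩ (show sSup S - γ < sSup S by linarith)
    rw [hS] at hs
    obtain ⟨ι, hfin, hι, A, hA, hle⟩ := hs n
    exact ⟨ι, hfin, hι, A, hA, hlt.le.trans hle⟩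

/-- There is no critical density over `Option α` if the density Hales–Jewett property holds over
`α`. -/
theorem no_crit {α : Type} [Finite α] [Nonempty α] (hD : DHJ α) {δ : ℝ} :
    ¬ IsCrit (Option α) δ := by
  intro hc
  have hδ : 0 < δ := hc.1
  obtain ⟨Θ, hΘ, hcorr⟩ := corr hD hc
  obtain ⟨p, hp⟩ : ∃ p : ℝ, p = δ * Θ / 8 := ⟨_, rfl⟩
  have hp0 : 0 < p := by rw [hp]; positivity
  obtain ⟨m1, hm1⟩ := hcorr p hp0
  obtain ⟨m0, hm0⟩ := hc.2.1 p hp0
  obtain ⟨N, hN⟩ := cov_compl (MDHJ_of_DHJ hD) m0 hp0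
  obtain ⟨A', D, hLF, hA', hD', hdD, hdisj⟩ := hm1 (max m1 N) (le_max_left _ _)
  have hcov := hN (Fin (max m1 N)) (by simp) D hD'
  have h1 := hcov (ind A') (ind_le_one A') (δ + p) (by positivity) (fun V _ =>
    hm0 (Fin m0) (by simp) (fun x => A' (V x)) (hLF.comp_sub V))
  have h2 : av (fun x => ind A' x * ind (fun z => ¬ ∀ s, D s z) x) = dn A' := by
    unfold dn
    congr 1
    funext x
    by_cases hx : A' x
    · rw [ind_of (A := fun z => ¬ ∀ s, D s z) (hdisj x hx), mul_one]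
    · rw [ind_of_not hx, zero_mul]
  have h3 := dn_not (fun x => ∀ a, D a x)
  rw [h2, h3] at h1
  have h4 : (δ + p) * (1 - dn fun x => ∀ a, D a x) ≤ (δ + p) * (1 - Θ) :=
    mul_le_mul_of_nonneg_left (by linarith) (by positivity)
  have h5 : δ - p ≤ (δ + p) * (1 - Θ) + p := by linarith
  have h6 : 0 < p * Θ := by positivity
  have h7 : δ * Θ = 8 * p := by rw [hp]; ring
  nlinarith

theorem dhj_option {α : Type} [Finite α] [Nonempty α] (hD : DHJ α) : DHJ (Option α) := by
  by_contra h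
  obtain ⟨δ, hδ⟩ := crit_of_not h
  exact no_crit hD hδ

theorem dhj_empty (α : Type) [IsEmpty α] : DHJ α := by
  intro δ hδ
  refine ⟨1, ?_⟩
  intro ι _ hι A hA
  exfalso
  have : IsEmpty (ι → α) := by
    have : Nonempty ι := by
      by_contra hne
      rw [not_nonempty_iff] at hne
      simp at hι
    infer_instance
  have h0 : dn A = 0 := by
    unfold dn av
    simp
  linarith

theorem dhj_unique (α : Type) [Unique α] : DHJ α := by
  intro δ hδ
  refine ⟨1, ?_⟩
  intro ι _ hι A hA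
  have : Nonempty ι := by
    by_contra hne
    rw [not_nonempty_iff] at hne
    simp at hι
  obtain ⟨x, hx⟩ := dn_pos_exists (hδ.trans_le hA)
  refine ⟨Line.diagonal α ι, fun a => ?_⟩
  rw [Subsingleton.elim ((Line.diagonal α ι) a) x]
  exact hx

/-- **The density Hales–Jewett theorem.** -/
theorem dhj (α : Type) [Finite α] : DHJ α := by
  refine Finite.induction_empty_option (P := fun α => DHJ α) ?_ ?_ ?_ α
  · intro α β e h
    exact h.congr e
  · exact dhj_empty _
  · intro α _ h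
    rcases isEmpty_or_nonempty α with he | hne
    · have : Unique (Option α) := ⟨⟨none⟩, fun a => by rcases a with _ | a; rfl; exact (he.false a).elim⟩
      exact dhj_unique _
    · haveI : Finite α := Finite.of_fintype α
      exact dhj_option h

/-- **The multidimensional density Hales–Jewett theorem.** -/
theorem mdhj (α : Type) [Finite α] [Nonempty α] : MDHJ α := MDHJ_of_DHJ (dhj α)

end H62DHJ
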