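import Pool.Agent.H62.DHJ.Av

/-!
# Words used in the correlation step (H62/DHJ/Words)
-/

open Combinatorics

namespace H62DHJ

private lemma Words_lup_apply {α : Type} {M : ℕ} (l : Line α (Fin M)) (c : Option α) (i : Fin M) :
    lup l c i = ((l.idxFun i).map some).getD c := rfl

/-- The line through the points `(ℓ(c), u with `none` replaced by ℓ(c), y)`. -/
theorem exists_line {α ι' : Type} {M m : ℕ} (l : Line α (Fin M)) (u : Fin M × Fin m → Option α)
    (y : ι' → Option α) :
    ∃ w : Line (Option α) ((Fin M ⊕ (Fin M × Fin m)) ⊕ ι'),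
      ∀ c, w c = Sum.elim (pre (lup l c) u) y := by
  refine ⟨⟨Sum.elim (Sum.elim (fun i => (l.idxFun i).map some)
    (fun p => (u p).elim ((l.idxFun p.1).map some) (fun b => some (some b))))
    (fun j => some (y j)), ?_⟩, ?_⟩
  · obtain ⟨i, hi⟩ := l.proper
    exact ⟨Sum.inl (Sum.inl i), by simp [hi]⟩
  · intro c
    funext i
    rcases i with (i | p) | j
    · rfl
    · cases h : u p with
      | none =>
        simp [pre, h]
        rfl
      | some b => simp [pre, h]
    · rfl

/-- The `m`-dimensional subspace of the points `(ℓ(none), (u0 in row i0, u elsewhere), y)`. -/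
theorem exists_sub {α ι' : Type} {M m : ℕ} (l : Line α (Fin M)) (i0 : Fin M)
    (hi0 : l.idxFun i0 = none) (u : Fin M × Fin m → Option α) (y : ι' → Option α) :
    ∃ V : Subspace (Fin m) (Option α) ((Fin M ⊕ (Fin M × Fin m)) ⊕ ι'),
      ∀ u0, V u0 = Sum.elim (pre (lup l none) (row i0 u0 u)) y := by
  refine ⟨⟨Sum.elim (Sum.elim (fun i => Sum.inl (lup l none i))
    (fun p => if p.1 = i0 then Sum.inr p.2 else
      Sum.inl ((u p).elim (lup l none p.1) some)))
    (fun j => Sum.inl (y j)), ?_⟩, ?_⟩
  · intro e
    exact ⟨Sum.inl (Sum.inr (i0, e)), by simp⟩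
  · intro u0
    funext i
    rcases i with (i | p) | j
    · simp [Subspace.coe_apply, pre]
    · by_cases hp : p.1 = i0
      · have h1 : lup l none p.1 = none := by rw [Words_lup_apply, hp, hi0]; rfl
        cases h : u0 p.2
        · simp only [Subspace.coe_apply, Sum.elim_inl, Sum.elim_inr, pre, row, if_pos hp, h,
            Option.elim_none]
          exact h1.symm
        · simp [Subspace.coe_apply, pre, row, hp, h]
      · simp [Subspace.coe_apply, pre, row, hp]
    · simp [Subspace.coe_apply]

/-- The sets `D_a` are `a`-insensitive. -/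
theorem ins_D {α ι' : Type} {M m : ℕ} (A : ((Fin M ⊕ (Fin M × Fin m)) ⊕ ι' → Option α) → Prop)
    (l : Line α (Fin M)) (i0 : Fin M) (hi0 : l.idxFun i0 = none)
    (u : Fin M × Fin m → Option α) (y : ι' → Option α) (a : α) :
    Ins a (fun u0 : Fin m → Option α =>
      A (Sum.elim (pre (lup l (some a)) (row i0 u0 u)) y)) := by
  intro u0
  have h1 : lup l (some a) i0 = some a := by rw [Words_lup_apply, hi0]; rfl
  have key : pre (lup l (some a)) (row i0 u0 u) = pre (lup l (some a)) (row i0 (rep a u0) u) := by
    funext i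
    rcases i with i | p
    · rfl
    · by_cases hp : p.1 = i0
      · cases h : u0 p.2
        · simp only [pre, row, rep, if_pos hp, h, Sum.elim_inr, Option.elim_none,
            Option.getD_none, Option.elim_some]
          rw [hp]
          exact h1
        · simp [pre, row, rep, hp, h]
      · simp [pre, row, hp]
  show A (Sum.elim (pre (lup l (some a)) (row i0 u0 u)) y) ↔
    A (Sum.elim (pre (lup l (some a)) (row i0 (rep a u0) u)) y)
  rw [key]

/-- A line over `α`, at a letter `some a`, is given by the line over `α`. -/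
theorem lup_some {α : Type} {M : ℕ} (l : Line α (Fin M)) (a : α) :
    lup l (some a) = fun i => some (l a i) := by
  funext i
  rw [Words_lup_apply]
  cases h : l.idxFun i <;> simp [h]

/-- Finding a popular line: if for every `u` and `x` the event `B u x` has density at least `δ/2`,
then some line `ℓ` over `α` has `B u (ℓ a)` for all `a` with popular density. -/
theorem popular_line {α : Type} [Finite α] [Nonempty α] {M : ℕ} {δ : ℝ} (hδ : 0 < δ)
    (hM : ∀ A : (Fin M → α) → Prop, δ / 4 ≤ dn A → ∃ l : Line α (Fin M), ∀ a, A (l a))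
    {X Y : Type} [Finite X] [Nonempty X] [Finite Y] [Nonempty Y]
    (B : X → (Fin M → α) → Y → Prop) (hB : ∀ u x, δ / 2 ≤ dn (fun y => B u x y)) :
    ∃ l : Line α (Fin M),
      δ / 4 / (Nat.card (Line α (Fin M)) : ℝ) ≤ dn (fun p : X × Y => ∀ a, B p.1 (l a) p.2) := by
  have e4 : δ / 4 = δ / 2 / 2 := by ring
  have h1 : δ / 2 ≤ av (fun p : X × Y => dn (fun x => B p.1 x p.2)) := by
    rw [av_prod]
    have h2 : ∀ u : X, δ / 2 ≤ av (fun y : Y => dn (fun x => B u x y)) := by
      intro u
      have h3 : av (fun y : Y => dn (fun x => B u x y)) =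
          av (fun x : Fin M → α => dn (fun y => B u x y)) :=
        av_comm (fun (y : Y) (x : Fin M → α) => ind (fun p : (Fin M → α) × Y => B u p.1 p.2) (x, y))
      rw [h3]
      calc δ / 2 = av (fun _ : Fin M → α => δ / 2) := (av_const _).symm
        _ ≤ _ := av_mono (hB u)
    calc δ / 2 = av (fun _ : X => δ / 2) := (av_const _).symm
      _ ≤ _ := av_mono h2
  have h2 := markov (X := X × Y) (f := fun p : X × Y => dn (fun x => B p.1 x p.2)) (δ := δ / 2)
    (fun p => dn_le_one _) (by positivity) h1
  rw [e4]
  refine pigeon (X := X × Y) (K := Line α (Fin M))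
    (fun p : X × Y => δ / 2 / 2 ≤ dn (fun x => B p.1 x p.2))
    (fun l p => ∀ a, B p.1 (l a) p.2) ?_ (by positivity) h2
  intro p hp
  rw [← e4] at hp
  exact hM _ hp

end H62DHJ
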